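import Mathlib
import Pool.Agent.KS6_52.MV.Proj

/-! The local volume functional `zeta`, its valuation property and its continuity. -/

namespace Pool.Agent.KS6_52.MV

open Set Metric MeasureTheory Filter Topology

variable {E : Type*} [NormedAddCommGroup E] [InnerProductSpace ℝ E]

/-- cut-off function -/
noncomputable def bump (s : ℝ) : ℝ := max (1 - s) 0

lemma bump_cont : Continuous bump := by unfold bump; fun_prop

lemma bump_nonneg (s : ℝ) : 0 ≤ bump s := le_max_right _ _

lemma bump_le {s : ℝ} (h : 0 ≤ s) : bump s ≤ 1 := by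
  unfold bump; exact max_le (by linarith) (by norm_num)

lemma bump_zero {s : ℝ} (h : 1 ≤ s) : bump s = 0 := by
  unfold bump; exact max_eq_right (by linarith)

/-- the integrand -/
noncomputable def intg (K : Set E) (z : E) : ℝ := bump (inner ℝ (z - proj K z) (proj K z))

/-- convex bodies with the origin in the interior -/
structure IsB (K : Set E) : Prop where
  cpt : IsCompact K
  cvx : Convex ℝ K
  zero : (0:E) ∈ interior K

lemma IsB.ne {K : Set E} (h : IsB K) : K.Nonempty := ⟨0, interior_subset h.zero⟩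

lemma IsB.proj {K : Set E} (h : IsB K) (z : E) : IsProj K z (proj K z) :=
  isProj_proj h.ne h.cpt h.cvx z

lemma IsB.ball {K : Set E} (h : IsB K) : ∃ r : ℝ, 0 < r ∧ closedBall (0:E) r ⊆ K := by
  have := mem_interior_iff_mem_nhds.1 h.zero
  obtain ⟨r, hr, hr2⟩ := nhds_basis_closedBall.mem_iff.1 this
  exact ⟨r, hr, hr2⟩

lemma IsB.bdd {K : Set E} (h : IsB K) : ∃ R : ℝ, 0 < R ∧ K ⊆ closedBall (0:E) R := by
  obtain ⟨R, hR⟩ := h.cpt.isBounded.subset_closedBall (0:E)
  exact ⟨max R 1, by positivity, hR.trans (closedBall_subset_closedBall (le_max_left _ _))⟩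

lemma intg_cont {K : Set E} (h : IsB K) : Continuous (intg K) := by
  have hp : Continuous (proj K) := (proj_lipschitz h.ne h.cpt h.cvx).continuous
  unfold intg
  exact bump_cont.comp (by fun_prop)

lemma intg_nonneg (K : Set E) (z : E) : 0 ≤ intg K z := bump_nonneg _

lemma intg_le {K : Set E} (h : IsB K) (z : E) : intg K z ≤ 1 := by
  obtain ⟨r, hr, hr2⟩ := h.ball
  apply bump_le
  have := (h.proj z).radius_le hr.le hr2
  exact le_trans (by positivity) this

lemma intg_supp {K : Set E} (h : IsB K) {r R : ℝ} (hr : 0 < r) (h1 : closedBall (0:E) r ⊆ K)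
    (h2 : K ⊆ closedBall (0:E) R) {z : E} (hz : R + 1 / r ≤ ‖z‖) : intg K z = 0 := by
  apply bump_zero
  have a := (h.proj z).radius_le hr.le h1
  have b : ‖proj K z‖ ≤ R := by simpa using h2 (h.proj z).1
  have c : ‖z‖ ≤ ‖z - proj K z‖ + ‖proj K z‖ := norm_le_norm_sub_add _ _
  have d : 1 / r ≤ ‖z - proj K z‖ := by linarith
  have e : r * (1 / r) ≤ r * ‖z - proj K z‖ := by gcongr
  rw [mul_one_div_cancel hr.ne'] at e
  linarith

variable [FiniteDimensional ℝ E] [MeasurableSpace E] [BorelSpace E]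

lemma intg_le_ind {K : Set E} (h : IsB K) {r R : ℝ} (hr : 0 < r) (h1 : closedBall (0:E) r ⊆ K)
    (h2 : K ⊆ closedBall (0:E) R) (z : E) :
    ‖intg K z‖ ≤ (closedBall (0:E) (R + 1 / r)).indicator (fun _ => (1:ℝ)) z := by
  rw [Real.norm_eq_abs, abs_of_nonneg (intg_nonneg _ _)]
  by_cases hz : z ∈ closedBall (0:E) (R + 1 / r)
  · rw [indicator_of_mem hz]; exact intg_le h z
  · rw [indicator_of_notMem hz, intg_supp h hr h1 h2]
    rw [mem_closedBall_zero_iff] at hz
    linarith

lemma ind_integrable (R : ℝ) :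
    Integrable ((closedBall (0:E) R).indicator (fun _ => (1:ℝ))) := by
  rw [integrable_indicator_iff isClosed_closedBall.measurableSet]
  exact integrableOn_const (isCompact_closedBall _ _).measure_lt_top.ne

lemma intg_integrable {K : Set E} (h : IsB K) : Integrable (intg K) := by
  obtain ⟨r, hr, hr2⟩ := h.ball
  obtain ⟨R, hR, hR2⟩ := h.bdd
  exact (ind_integrable (R + 1 / r)).mono' (intg_cont h).aestronglyMeasurable
    (Eventually.of_forall (intg_le_ind h hr hr2 hR2))

/-- the functional -/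
noncomputable def zeta (K : Set E) : ℝ := ∫ z, intg K z

lemma zeta_val {K L : Set E} (hK : IsB K) (hL : IsB L) (hU : IsB (K ∪ L)) :
    zeta (K ∪ L) + zeta (K ∩ L) = zeta K + zeta L := by
  have hI : IsB (K ∩ L) := ⟨hK.cpt.inter hL.cpt, hK.cvx.inter hL.cvx, by
    rw [interior_inter]; exact ⟨hK.zero, hL.zero⟩⟩
  unfold zeta
  rw [← integral_add (intg_integrable hU) (intg_integrable hI),
    ← integral_add (intg_integrable hK) (intg_integrable hL)]
  congr 1
  ext z
  unfold intg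
  rcases proj_union_inter hK.cpt hL.cpt hK.cvx hL.cvx hK.ne hL.ne hU.cvx z with ⟨a, b⟩ | ⟨a, b⟩
  · rw [a, b]
  · rw [a, b, add_comm]

/-- Hausdorff closeness -/
def Close (δ : ℝ) (K L : Set E) : Prop :=
  (∀ a ∈ K, ∃ b ∈ L, ‖a - b‖ ≤ δ) ∧ (∀ b ∈ L, ∃ a ∈ K, ‖b - a‖ ≤ δ)

omit [FiniteDimensional ℝ E] [MeasurableSpace E] [BorelSpace E] in
lemma Close.ball {δ r : ℝ} {K L : Set E} (h : Close δ K L) (hL : closedBall (0:E) r ⊆ L)
    (hK : IsCompact K) (hKc : Convex ℝ K) (hKn : K.Nonempty) (hr : δ ≤ r) :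
    closedBall (0:E) (r - δ) ⊆ K := by
  intro x hx
  rw [mem_closedBall_zero_iff] at hx
  by_contra hxK
  have hp := isProj_proj hKn hK hKc x
  set p := proj K x
  have hne : x - p ≠ 0 := by
    intro h0
    exact hxK ((sub_eq_zero.1 h0) ▸ hp.1)
  have hn : 0 < ‖x - p‖ := norm_pos_iff.2 hne
  have hδr : 0 ≤ r := by
    have := norm_nonneg x
    by_contra hneg
    push Not at hneg
    -- r < 0, δ ≤ r < 0 contradiction with closeness
    obtain ⟨a, ha⟩ := hKn
    obtain ⟨b, _, hb⟩ := h.1 a ha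
    have := norm_nonneg (a - b)
    linarith
  set u : E := (1 / ‖x - p‖) • (x - p) with hu
  have hun : ‖u‖ = 1 := by
    rw [hu, norm_smul, Real.norm_eq_abs, abs_of_pos (by positivity)]
    field_simp
  have hru : r • u ∈ L := by
    apply hL
    rw [mem_closedBall_zero_iff, norm_smul, hun, mul_one, Real.norm_eq_abs, abs_of_nonneg hδr]
  obtain ⟨y, hy, hy2⟩ := h.2 _ hru
  have a1 := hp.2 y hy
  -- inner (x-p) (y - p) ≤ 0
  have a2 : inner ℝ u (y - p) ≤ 0 := by
    rw [hu, inner_smul_left]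
    exact mul_nonpos_of_nonneg_of_nonpos (by simp) a1
  have a3 : inner ℝ u (x - p) = ‖x - p‖ := by
    rw [hu, inner_smul_left, real_inner_self_eq_norm_sq]
    simp only [one_div, map_inv₀, conj_trivial]
    field_simp
  have a4 : inner ℝ u x ≤ r - δ := by
    have := real_inner_le_norm u x
    rw [hun, one_mul] at this
    linarith
  have a5 : inner ℝ u (r • u - y) ≤ δ := by
    have := real_inner_le_norm u (r • u - y)
    rw [hun, one_mul] at this
    linarith
  have a6 : inner ℝ u (r • u) = r := by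
    rw [inner_smul_right, real_inner_self_eq_norm_sq, hun]; ring
  rw [inner_sub_right] at a2 a3 a5
  linarith

omit [FiniteDimensional ℝ E] [MeasurableSpace E] [BorelSpace E] in
lemma Close.bdd {δ R : ℝ} {K L : Set E} (h : Close δ K L) (hL : L ⊆ closedBall (0:E) R) :
    K ⊆ closedBall (0:E) (R + δ) := by
  intro x hx
  obtain ⟨b, hb, hb2⟩ := h.1 x hx
  have h1 : ‖b‖ ≤ R := by simpa using hL hb
  have h2 : ‖x‖ ≤ ‖x - b‖ + ‖b‖ := norm_le_norm_sub_add _ _
  rw [mem_closedBall_zero_iff]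
  linarith

omit [FiniteDimensional ℝ E] [MeasurableSpace E] [BorelSpace E] in
lemma proj_tendsto {K : ℕ → Set E} {L : Set E} {δ : ℕ → ℝ} (hK : ∀ j, IsB (K j)) (hL : IsB L)
    (hc : ∀ j, Close (δ j) (K j) L) (hδ : Tendsto δ atTop (𝓝 0)) (z : E) :
    Tendsto (fun j => proj (K j) z) atTop (𝓝 (proj L z)) := by
  obtain ⟨R, hR, hR2⟩ := hL.bdd
  have hδ0 : ∀ j, 0 ≤ δ j := by
    intro j
    obtain ⟨b, _, hb⟩ := (hc j).1 _ ((hK j).proj 0).1
    exact (norm_nonneg _).trans hb
  have key : ∀ j, ‖proj (K j) z - proj L z‖ ^ 2 ≤ δ j * (2 * ‖z‖ + 2 * R + δ j) := by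
    intro j
    have h := ((hK j).proj z).norm_sq_le (hL.proj z) (hc j).1 (hc j).2
    have h1 : ‖proj L z‖ ≤ R := by simpa using hR2 (hL.proj z).1
    have h2 : ‖proj (K j) z‖ ≤ R + δ j := by simpa using (hc j).bdd hR2 ((hK j).proj z).1
    have h3 := norm_sub_le z (proj L z)
    have h4 := norm_sub_le z (proj (K j) z)
    have h5 : ‖z - proj (K j) z‖ + ‖z - proj L z‖ ≤ 2 * ‖z‖ + 2 * R + δ j := by linarith
    exact h.trans (mul_le_mul_of_nonneg_left h5 (hδ0 j))
  rw [tendsto_iff_norm_sub_tendsto_zero]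
  have h2 : Tendsto (fun j => δ j * (2 * ‖z‖ + 2 * R + δ j)) atTop (𝓝 (0 * (2 * ‖z‖ + 2 * R + 0))) :=
    hδ.mul (tendsto_const_nhds.add hδ)
  rw [zero_mul] at h2
  have h3 : Tendsto (fun j => ‖proj (K j) z - proj L z‖ ^ 2) atTop (𝓝 0) :=
    squeeze_zero (fun j => by positivity) key h2
  have h4 := h3.sqrt
  simp only [Real.sqrt_zero] at h4
  refine h4.congr fun j => ?_
  exact Real.sqrt_sq (norm_nonneg _)

lemma zeta_tendsto {K : ℕ → Set E} {L : Set E} {δ : ℕ → ℝ} (hK : ∀ j, IsB (K j)) (hL : IsB L)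
    (hc : ∀ j, Close (δ j) (K j) L) (hδ : Tendsto δ atTop (𝓝 0)) :
    Tendsto (fun j => zeta (K j)) atTop (𝓝 (zeta L)) := by
  obtain ⟨r, hr, hr2⟩ := hL.ball
  obtain ⟨R, hR, hR2⟩ := hL.bdd
  unfold zeta
  refine tendsto_integral_filter_of_dominated_convergence
    ((closedBall (0:E) ((R + 1) + 1 / (r / 2))).indicator (fun _ => (1:ℝ)))
    (Eventually.of_forall fun j => (intg_cont (hK j)).aestronglyMeasurable) ?_
    (ind_integrable _) (Eventually.of_forall fun z => ?_)
  · have h1 : ∀ᶠ j in atTop, δ j < min (r / 2) 1 := hδ.eventually (gt_mem_nhds (by positivity))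
    filter_upwards [h1] with j hj
    have ha : δ j < r / 2 := lt_of_lt_of_le hj (min_le_left _ _)
    have hb : δ j < 1 := lt_of_lt_of_le hj (min_le_right _ _)
    refine Eventually.of_forall fun z => ?_
    apply intg_le_ind (hK j) (by positivity : 0 < r / 2)
    · refine (closedBall_subset_closedBall ?_).trans
        ((hc j).ball hr2 (hK j).cpt (hK j).cvx (hK j).ne (by linarith))
      linarith
    · refine ((hc j).bdd hR2).trans (closedBall_subset_closedBall ?_)
      linarith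
  · unfold intg
    have h := proj_tendsto hK hL hc hδ z
    exact (bump_cont.tendsto _).comp (Tendsto.inner (tendsto_const_nhds.sub h) h)

omit [FiniteDimensional ℝ E] [MeasurableSpace E] [BorelSpace E] in
lemma Close.image {δ : ℝ} {K L : Set E} (h : Close δ K L) (T : E →L[ℝ] E) :
    Close (‖T‖ * δ) (T '' K) (T '' L) := by
  constructor
  · rintro _ ⟨a, ha, rfl⟩
    obtain ⟨b, hb, hb2⟩ := h.1 a ha
    refine ⟨T b, ⟨b, hb, rfl⟩, ?_⟩
    rw [← map_sub]
    exact (T.le_opNorm _).trans (by gcongr)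
  · rintro _ ⟨a, ha, rfl⟩
    obtain ⟨b, hb, hb2⟩ := h.2 a ha
    refine ⟨T b, ⟨b, hb, rfl⟩, ?_⟩
    rw [← map_sub]
    exact (T.le_opNorm _).trans (by gcongr)

omit [FiniteDimensional ℝ E] [MeasurableSpace E] [BorelSpace E] in
lemma IsB.image {K : Set E} (h : IsB K) (T : E ≃L[ℝ] E) : IsB (T '' K) := by
  refine ⟨h.cpt.image T.continuous, h.cvx.linear_image T.toLinearEquiv.toLinearMap, ?_⟩
  have h2 : T '' (interior K) ⊆ interior (T '' K) :=
    interior_maximal (image_mono interior_subset) (T.toHomeomorph.isOpenMap _ isOpen_interior)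
  exact h2 ⟨0, h.zero, map_zero T⟩

end Pool.Agent.KS6_52.MV
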