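import Mathlib
import Pool.Agent.KS6_52.MV.Cov

/-! The part of degree `k` of the density, as a pairing of the `k`-th compound of a matrix with an
explicit tensor; all dimensions `n`, all degrees `k`. -/

namespace Pool.Agent.KS6_52.MV

open Set Metric MeasureTheory Filter Topology Matrix

set_option maxHeartbeats 4000000

/-- `n`-dimensional Euclidean space -/
abbrev En (n : ℕ) := EuclideanSpace ℝ (Fin n)

/-- real `n × n` matrices -/
abbrev Mat (n : ℕ) := Matrix (Fin n) (Fin n) ℝ

/-- indices of `k`-tensors -/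
abbrev Ix (k n : ℕ) := Fin k → Fin n

/-- tensors of order `2 k` -/
abbrev Ten (k n : ℕ) := EuclideanSpace ℝ (Ix k n × Ix k n)

variable {n k : ℕ}

lemma integrable_comp {F : Type*} [NormedAddCommGroup F] [NormedSpace ℝ F]
    {K : Set (En n)} (h : IsB K) {G : (En n →L[ℝ] En n) → F} (hG : Continuous G) :
    Integrable (fun z => intg K z • G (fderiv ℝ (proj K) z)) := by
  obtain ⟨r, hr, hr2⟩ := h.ball
  obtain ⟨R, hR, hR2⟩ := h.bdd
  have hcomp : IsCompact (closedBall (0 : En n →L[ℝ] En n) 1) := isCompact_closedBall _ _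
  obtain ⟨C, hC⟩ := (hcomp.image hG).isBounded.exists_norm_le
  have hC0 : 0 ≤ C := (norm_nonneg _).trans (hC (G 0) ⟨0, by simp, rfl⟩)
  have hb : ∀ z, ‖G (fderiv ℝ (proj K) z)‖ ≤ C := by
    intro z
    apply hC
    refine ⟨_, ?_, rfl⟩
    rw [mem_closedBall_zero_iff]
    have := norm_fderiv_le_of_lipschitz ℝ (proj_lipschitz h.ne h.cpt h.cvx) (x₀ := z)
    simpa using this
  have hmeas : AEStronglyMeasurable (fun z => intg K z • G (fderiv ℝ (proj K) z)) volume := by
    have h1 : StronglyMeasurable (fderiv ℝ (proj K)) :=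
      (measurable_fderiv ℝ (proj K)).stronglyMeasurable
    exact ((intg_cont h).stronglyMeasurable.smul (hG.comp_stronglyMeasurable h1)).aestronglyMeasurable
  refine ((ind_integrable (E := En n) (R + 1 / r)).smul C).mono' hmeas
    (Eventually.of_forall fun z => ?_)
  rw [norm_smul]
  have h1 := intg_le_ind h hr hr2 hR2 z
  have h2 := hb z
  have h3 := norm_nonneg (intg K z)
  have h4 := norm_nonneg (G (fderiv ℝ (proj K) z))
  simp only [Pi.smul_apply, smul_eq_mul]
  calc ‖intg K z‖ * ‖G (fderiv ℝ (proj K) z)‖ ≤ ‖intg K z‖ * C := by gcongr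
    _ ≤ (closedBall (0:En n) (R + 1 / r)).indicator (fun _ => (1:ℝ)) z * C := by gcongr
    _ = _ := mul_comm _ _

/-- matrix of an operator -/
noncomputable def mat (P : En n →L[ℝ] En n) : Mat n := (toEuclideanCLM (n := Fin n) (𝕜 := ℝ)).symm P

lemma mat_cont : Continuous (mat (n := n)) := by
  have : (mat (n := n)) = fun P => (((toEuclideanCLM (n := Fin n) (𝕜 := ℝ)).symm.toAlgEquiv.toLinearEquiv :
      (En n →L[ℝ] En n) ≃ₗ[ℝ] Mat n) P) := rfl
  rw [this]
  exact LinearMap.continuous_of_finiteDimensional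
    (((toEuclideanCLM (n := Fin n) (𝕜 := ℝ)).symm.toAlgEquiv.toLinearEquiv :
      (En n →L[ℝ] En n) ≃ₗ[ℝ] Mat n).toLinearMap)

/-! ### Antisymmetrisation -/

lemma antisymm (M : Matrix (Fin k) (Fin n) ℝ) (F : Ix k n → ℝ)
    (hF : ∀ (σ : Equiv.Perm (Fin k)) (l : Ix k n), F (l ∘ σ) = ((Equiv.Perm.sign σ : ℤ) : ℝ) * F l) :
    ∑ l : Ix k n, (∏ a, M a (l a)) * F l =
    ∑ l : Ix k n, (M.submatrix id l).det * ((1 / (k.factorial : ℝ)) * F l) := by
  have h1 : ∀ σ : Equiv.Perm (Fin k), ∑ l : Ix k n,
      (((Equiv.Perm.sign σ : ℤ) : ℝ) * ∏ a, M (σ a) (l a)) * F l =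
      ∑ l : Ix k n, (∏ a, M a (l a)) * F l := by
    intro σ
    rw [← Equiv.sum_comp (Equiv.arrowCongr σ.symm (Equiv.refl (Fin n)))]
    refine Finset.sum_congr rfl fun l _ => ?_
    have e : (Equiv.arrowCongr σ.symm (Equiv.refl (Fin n))) l = l ∘ σ := rfl
    rw [e, hF σ l]
    have e2 : ∏ a, M (σ a) ((l ∘ σ) a) = ∏ a, M a (l a) :=
      Equiv.prod_comp σ (fun a => M a (l a))
    rw [e2]
    have hs : (((Equiv.Perm.sign σ : ℤ) : ℝ)) * ((Equiv.Perm.sign σ : ℤ) : ℝ) = 1 := by
      rw [← Int.cast_mul, ← Units.val_mul, Int.units_mul_self]; simp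
    calc _ = ((((Equiv.Perm.sign σ : ℤ) : ℝ)) * ((Equiv.Perm.sign σ : ℤ) : ℝ)) *
        ((∏ a, M a (l a)) * F l) := by ring
      _ = _ := by rw [hs, one_mul]
  have h2 : ∑ l : Ix k n, (M.submatrix id l).det * ((1 / (k.factorial : ℝ)) * F l) =
      (1 / (k.factorial : ℝ)) * ∑ σ : Equiv.Perm (Fin k), ∑ l : Ix k n,
        (((Equiv.Perm.sign σ : ℤ) : ℝ) * ∏ a, M (σ a) (l a)) * F l := by
    rw [Finset.sum_comm, Finset.mul_sum]
    refine Finset.sum_congr rfl fun l _ => ?_
    rw [Matrix.det_apply', ← Finset.sum_mul]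
    simp only [Matrix.submatrix_apply, id_eq]
    ring
  rw [h2]
  simp only [h1]
  rw [Finset.sum_const, Finset.card_univ, Fintype.card_perm, Fintype.card_fin, nsmul_eq_mul,
    ← mul_assoc, one_div_mul_cancel (by exact_mod_cast Nat.factorial_ne_zero k), one_mul]

/-! ### Replacing several rows -/

open Classical in
/-- the matrix `Y` with the row `i a` replaced by `Z a` -/
noncomputable def ins (Y : Mat n) (i : Ix k n) (Z : Fin k → Fin n → ℝ) : Mat n :=
  Matrix.of fun r => if h : ∃ a, i a = r then Z h.choose else Y r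

lemma ins_at {Y : Mat n} {i : Ix k n} (hi : Function.Injective i) (Z : Fin k → Fin n → ℝ)
    (a : Fin k) : ins Y i Z (i a) = Z a := by
  have h : ∃ b, i b = i a := ⟨a, rfl⟩
  have h2 : h.choose = a := hi h.choose_spec
  show (if h : ∃ b, i b = i a then Z h.choose else Y (i a)) = Z a
  rw [dif_pos h, h2]

lemma ins_off {Y : Mat n} {i : Ix k n} (Z : Fin k → Fin n → ℝ)
    {r : Fin n} (hr : ¬ ∃ a, i a = r) : ins Y i Z r = Y r := by
  show (if h : ∃ a, i a = r then Z h.choose else Y r) = Y r
  rw [dif_neg hr]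

lemma ins_update {Y : Mat n} {i : Ix k n} (hi : Function.Injective i) (Z : Fin k → Fin n → ℝ)
    (a : Fin k) (x : Fin n → ℝ) :
    ins Y i (Function.update Z a x) = (ins Y i Z).updateRow (i a) x := by
  funext r
  by_cases h : ∃ b, i b = r
  · obtain ⟨b, rfl⟩ := h
    rw [ins_at hi]
    by_cases hb : b = a
    · subst hb
      rw [Function.update_self]
      funext c
      rw [Matrix.updateRow_self]
    · rw [Function.update_of_ne hb]
      funext c
      rw [Matrix.updateRow_ne (fun h => hb (hi h)), ins_at hi]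
  · rw [ins_off _ h]
    funext c
    rw [Matrix.updateRow_ne (fun h2 => h ⟨a, h2.symm⟩), ins_off _ h]

/-- the determinant of `ins`, as an alternating map of the new rows -/
noncomputable def insAlt (Y : Mat n) (i : Ix k n) (hi : Function.Injective i) :
    (Fin n → ℝ) [⋀^Fin k]→ₗ[ℝ] ℝ where
  toFun Z := (ins Y i Z).det
  map_update_add' := by
    intro inst Z a x y
    have e : inst = instDecidableEqFin k := Subsingleton.elim _ _
    subst e
    rw [ins_update hi, ins_update hi, ins_update hi, Matrix.det_updateRow_add]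
  map_update_smul' := by
    intro inst Z a c x
    have e : inst = instDecidableEqFin k := Subsingleton.elim _ _
    subst e
    rw [ins_update hi, ins_update hi, Matrix.det_updateRow_smul]
    rfl
  map_eq_zero_of_eq' := by
    intro Z a b hab hne
    apply Matrix.det_zero_of_row_eq (i := i a) (j := i b) (fun h => hne (hi h))
    rw [ins_at hi, ins_at hi, hab]

lemma insAlt_apply (Y : Mat n) (i : Ix k n) (hi : Function.Injective i) (Z : Fin k → Fin n → ℝ) :
    insAlt Y i hi Z = (ins Y i Z).det := rfl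

lemma ins_det_perm (Y : Mat n) (i : Ix k n) (hi : Function.Injective i) (Q : Fin n → Fin n → ℝ)
    (σ : Equiv.Perm (Fin k)) (l : Ix k n) :
    (ins Y i (fun a => Q ((l ∘ σ) a))).det =
    ((Equiv.Perm.sign σ : ℤ) : ℝ) * (ins Y i (fun a => Q (l a))).det := by
  have h := (insAlt Y i hi).map_perm (fun a => Q (l a)) σ
  rw [insAlt_apply, insAlt_apply] at h
  have e : ((fun a => Q (l a)) ∘ σ) = fun a => Q ((l ∘ σ) a) := rfl
  rw [e] at h
  rw [h, Units.smul_def, zsmul_eq_mul]

lemma ins_det_mul (A : Mat n) (Q : Mat n) (Y : Mat n) (i : Ix k n) (hi : Function.Injective i) :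
    (ins Y i (fun a => (A * Q) (i a))).det =
    ∑ l : Ix k n, (A.submatrix i l).det *
      ((1 / (k.factorial : ℝ)) * (ins Y i (fun a => Q (l a))).det) := by
  have hrow : ∀ a : Fin k, (A * Q) (i a) = ∑ c : Fin n, A (i a) c • Q c := by
    intro a; ext b
    simp [Matrix.mul_apply, Finset.sum_apply]
  have e1 : (ins Y i (fun a => (A * Q) (i a))).det =
      ∑ l : Ix k n, (∏ a, A (i a) (l a)) * (ins Y i (fun a => Q (l a))).det := by
    simp only [hrow]
    rw [← insAlt_apply Y i hi]
    have h := (insAlt Y i hi).toMultilinearMap.map_sum (fun a (c : Fin n) => A (i a) c • Q c)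
    refine h.trans (Finset.sum_congr rfl fun l _ => ?_)
    have h2 := (insAlt Y i hi).toMultilinearMap.map_smul_univ (fun a => A (i a) (l a))
      (fun a => Q (l a))
    exact h2
  rw [e1]
  have h3 := antisymm (A.submatrix i id) (fun l => (ins Y i (fun a => Q (l a))).det)
    (fun σ l => ins_det_perm Y i hi Q σ l)
  simp only [Matrix.submatrix_apply, id_eq, Matrix.submatrix_submatrix, Function.comp_id,
    Function.id_comp] at h3
  exact h3

/-! ### Extraction of the part of degree `k` -/

lemma exists_wt (N k : ℕ) : ∃ w : Fin (N + 1) → ℝ, k ≤ N → ∀ m ≤ N,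
    ∑ j : Fin (N + 1), w j * ((j : ℝ) + 1) ^ m = if m = k then 1 else 0 := by
  by_cases hk : k ≤ N
  swap
  · exact ⟨0, fun h => absurd h hk⟩
  let v : Fin (N + 1) → ℝ := fun j => (j : ℝ) + 1
  have hv : Function.Injective v := by
    intro a b hab
    have : (a : ℝ) = b := by simpa [v] using hab
    exact Fin.ext (by exact_mod_cast this)
  have hdet : IsUnit (Matrix.vandermonde v).det :=
    isUnit_iff_ne_zero.2 (Matrix.det_vandermonde_ne_zero_iff.2 hv)
  refine ⟨(Pi.single (⟨k, by omega⟩ : Fin (N + 1)) 1) ᵥ* (Matrix.vandermonde v)⁻¹, fun _ m hm => ?_⟩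
  have h1 : ((Pi.single (⟨k, by omega⟩ : Fin (N + 1)) (1:ℝ)) ᵥ* (Matrix.vandermonde v)⁻¹) ᵥ*
      (Matrix.vandermonde v) = Pi.single (⟨k, by omega⟩ : Fin (N + 1)) (1:ℝ) := by
    rw [Matrix.vecMul_vecMul, Matrix.nonsing_inv_mul _ hdet, Matrix.vecMul_one]
  have h2 := congrFun h1 ⟨m, by omega⟩
  rw [Matrix.vecMul, dotProduct] at h2
  simp only [Matrix.vandermonde_apply, v] at h2
  rw [h2, Pi.single_apply]
  simp [Fin.ext_iff]

/-- interpolation weights extracting the part of degree `k` of a polynomial of degree `n` -/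
noncomputable def wt (n k : ℕ) : Fin (n + 1) → ℝ := (exists_wt n k).choose

lemma wt_spec (hk : k ≤ n) {m : ℕ} (hm : m ≤ n) :
    ∑ j : Fin (n + 1), wt n k j * ((j : ℝ) + 1) ^ m = if m = k then 1 else 0 :=
  (exists_wt n k).choose_spec hk m hm

lemma det_smul_add {N : ℕ} (c : ℝ) (X Y : Mat N) :
    (c • X + Y).det = ∑ s : Finset (Fin N), c ^ s.card * (Matrix.of (s.piecewise X Y)).det := by
  have h := (detRowAlternating (n := Fin N) (R := ℝ)).toMultilinearMap.map_add_univ (c • X) Y
  have h0 : (c • X + Y).det = (detRowAlternating (n := Fin N) (R := ℝ)).toMultilinearMap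
    ((c • X : Fin N → Fin N → ℝ) + Y) := rfl
  refine h0.trans (h.trans ?_)
  refine Finset.sum_congr rfl fun s _ => ?_
  have h1 := (detRowAlternating (n := Fin N) (R := ℝ)).toMultilinearMap.map_piecewise_smul
    (fun _ => c) (s.piecewise X Y) s
  simp only [Finset.prod_const, smul_eq_mul] at h1
  have h2 : s.piecewise (fun i => c • s.piecewise X Y i) (s.piecewise X Y) =
      s.piecewise ((c • X : Fin N → Fin N → ℝ)) Y := by
    ext i j
    by_cases hi : i ∈ s
    · simp only [Finset.piecewise, hi, if_true]; rfl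
    · simp only [Finset.piecewise, hi, if_false]
  rw [h2] at h1
  exact h1

lemma extract (hk : k ≤ n) (X Y : Mat n) :
    ∑ j : Fin (n + 1), wt n k j * (((j : ℝ) + 1) • X + Y).det =
    ∑ s ∈ Finset.powersetCard k (Finset.univ : Finset (Fin n)),
      (Matrix.of (s.piecewise X Y)).det := by
  have h1 : ∀ j : Fin (n + 1), wt n k j * (((j : ℝ) + 1) • X + Y).det =
      ∑ s : Finset (Fin n), (wt n k j * ((j : ℝ) + 1) ^ s.card) *
        (Matrix.of (s.piecewise X Y)).det := by
    intro j
    rw [det_smul_add, Finset.mul_sum]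
    refine Finset.sum_congr rfl fun s _ => by ring
  simp only [h1]
  rw [Finset.sum_comm]
  have h2 : ∀ s : Finset (Fin n), ∑ j : Fin (n + 1), (wt n k j * ((j : ℝ) + 1) ^ s.card) *
      (Matrix.of (s.piecewise X Y)).det =
      if s.card = k then (Matrix.of (s.piecewise X Y)).det else 0 := by
    intro s
    rw [← Finset.sum_mul, wt_spec hk (by simpa using Finset.card_le_univ s)]
    split_ifs <;> simp
  simp only [h2]
  rw [← Finset.sum_filter]
  congr 1
  ext s
  simp [Finset.mem_powersetCard]

open Classical in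
lemma sum_subsets (F : Finset (Fin n) → ℝ) :
    ∑ s ∈ Finset.powersetCard k (Finset.univ : Finset (Fin n)), F s =
    ∑ i : Ix k n, if StrictMono i then F (Finset.univ.image i) else 0 := by
  rw [← Finset.sum_filter]
  symm
  refine Finset.sum_bij' (fun i _ => Finset.univ.image i)
    (fun s hs => (s.orderEmbOfFin (Finset.mem_powersetCard.1 hs).2 : Fin k → Fin n))
    ?_ ?_ ?_ ?_ ?_
  · intro i hi
    have h := (Finset.mem_filter.1 hi).2
    rw [Finset.mem_powersetCard]
    refine ⟨Finset.subset_univ _, ?_⟩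
    rw [Finset.card_image_of_injective _ h.injective, Finset.card_univ, Fintype.card_fin]
  · intro s hs
    rw [Finset.mem_filter]
    exact ⟨Finset.mem_univ _, (s.orderEmbOfFin _).strictMono⟩
  · intro i hi
    have h := (Finset.mem_filter.1 hi).2
    symm
    apply Finset.orderEmbOfFin_unique
    · intro x
      exact Finset.mem_image_of_mem _ (Finset.mem_univ _)
    · exact h
  · intro s hs
    ext x
    rw [Finset.mem_image]
    constructor
    · rintro ⟨a, _, rfl⟩
      exact Finset.orderEmbOfFin_mem s _ a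
    · intro hx
      have : x ∈ Set.range (s.orderEmbOfFin (Finset.mem_powersetCard.1 hs).2) := by
        rw [Finset.range_orderEmbOfFin]; exact hx
      obtain ⟨a, ha⟩ := this
      exact ⟨a, Finset.mem_univ _, ha⟩
  · intro i hi
    rfl

lemma piecewise_image {i : Ix k n} (hi : Function.Injective i) (X Y : Mat n) :
    Matrix.of ((Finset.univ.image i).piecewise X Y) = ins Y i (fun a => X (i a)) := by
  funext r
  by_cases h : ∃ a, i a = r
  · obtain ⟨a, rfl⟩ := h
    rw [ins_at hi]
    exact Finset.piecewise_eq_of_mem (s := Finset.univ.image i) (f := (X : Fin n → Fin n → ℝ))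
      (g := (Y : Fin n → Fin n → ℝ)) (Finset.mem_image_of_mem _ (Finset.mem_univ _))
  · rw [ins_off _ h]
    refine Finset.piecewise_eq_of_notMem (s := Finset.univ.image i) (f := (X : Fin n → Fin n → ℝ))
      (g := (Y : Fin n → Fin n → ℝ)) ?_
    intro h2
    obtain ⟨a, _, ha⟩ := Finset.mem_image.1 h2
    exact h ⟨a, ha⟩

open Classical in
/-- density tensor -/
noncomputable def dens (k : ℕ) (P : Mat n) : Ten k n :=
  WithLp.toLp 2 (fun p => if StrictMono p.1 then
    (1 / (k.factorial : ℝ)) * (ins P p.1 (fun a => (1 - P) (p.2 a))).det else 0)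

lemma dens_cont : Continuous (dens (n := n) k) := by
  unfold dens
  refine (PiLp.continuous_toLp 2 _).comp ?_
  refine continuous_pi fun p => ?_
  by_cases hp : StrictMono p.1
  · simp only [hp, if_true]
    refine continuous_const.mul ?_
    apply Continuous.matrix_det
    refine continuous_pi fun r => ?_
    by_cases h : ∃ a, p.1 a = r
    · have e : (fun P : Mat n => ins P p.1 (fun a => (1 - P) (p.2 a)) r) =
          fun P => (1 - P) (p.2 h.choose) := by
        funext P
        show (if h : ∃ a, p.1 a = r then _ else _) = _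
        rw [dif_pos h]
      rw [e]
      exact (continuous_apply _).comp (continuous_const.sub continuous_id)
    · have e : (fun P : Mat n => ins P p.1 (fun a => (1 - P) (p.2 a)) r) =
          fun P => P r := by
        funext P
        rw [ins_off _ h]
      rw [e]
      exact continuous_apply _
  · simp only [hp, if_false]; exact continuous_const

/-- the `k`-th compound of a matrix, as a tensor -/
noncomputable def lam (k : ℕ) (A : Mat n) : Ten k n :=
  WithLp.toLp 2 (fun p => (A.submatrix p.1 p.2).det)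

/-- the part of degree `k` is the pairing of `lam A` with `dens P` -/
lemma quad_eq (hk : k ≤ n) (A P : Mat n) :
    ∑ j : Fin (n + 1), wt n k j * (((j : ℝ) + 1) • (A * (1 - P)) + P).det =
    inner ℝ (lam k A) (dens k P) := by
  rw [extract hk, sum_subsets]
  rw [PiLp.inner_apply]
  rw [Fintype.sum_prod_type]
  refine Finset.sum_congr rfl fun i _ => ?_
  by_cases hi : StrictMono i
  · rw [if_pos hi, piecewise_image hi.injective, ins_det_mul A (1 - P) P i hi.injective]
    refine Finset.sum_congr rfl fun l _ => ?_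
    simp only [lam, dens, hi, if_true]
    rw [real_inner_comm]
    simp
  · rw [if_neg hi]
    simp [lam, dens, hi]

end Pool.Agent.KS6_52.MV
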