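import Mathlib
import Pool.Agent.KS6_52.MV.Quad

/-! The tensor valued functional and its properties. -/

namespace Pool.Agent.KS6_52.MV

open Set Metric MeasureTheory Filter Topology Matrix

set_option maxHeartbeats 4000000

variable {n k : ℕ}

/-- operator of a matrix -/
noncomputable abbrev op (B : Mat n) : En n →L[ℝ] En n := toEuclideanCLM (n := Fin n) (𝕜 := ℝ) B

lemma op_mul (A B : Mat n) : op (A * B) = (op A).comp (op B) := map_mul _ _ _

lemma op_one : op (1 : Mat n) = ContinuousLinearMap.id ℝ (En n) := map_one _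

lemma op_mat (P : En n →L[ℝ] En n) : op (mat P) = P := StarAlgEquiv.apply_symm_apply _ _

lemma op_det (B : Mat n) : (op B).det = B.det := by
  have : (op B : En n →ₗ[ℝ] En n) = Matrix.toEuclideanLin B := rfl
  show LinearMap.det (op B : En n →ₗ[ℝ] En n) = _
  rw [this, Matrix.toEuclideanLin_eq_toLin, LinearMap.det_toLin]

/-- the equivalence given by an invertible matrix -/
noncomputable def eqv (B : Mat n) (hB : B.det ≠ 0) : En n ≃L[ℝ] En n :=
  ContinuousLinearEquiv.equivOfInverse (op B) (op B⁻¹)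
    (fun x => by
      have : (op B⁻¹).comp (op B) = ContinuousLinearMap.id ℝ (En n) := by
        rw [← op_mul, Matrix.nonsing_inv_mul _ (isUnit_iff_ne_zero.2 hB), op_one]
      exact congrArg (fun f => f x) this)
    (fun x => by
      have : (op B).comp (op B⁻¹) = ContinuousLinearMap.id ℝ (En n) := by
        rw [← op_mul, Matrix.mul_nonsing_inv _ (isUnit_iff_ne_zero.2 hB), op_one]
      exact congrArg (fun f => f x) this)

/-- scaled local volume -/
noncomputable def zf (B : Mat n) (K : Set (En n)) : ℝ := |B.det| * zeta (op B⁻¹ '' K)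

lemma zf_eq {K : Set (En n)} (h : IsB K) {B : Mat n} (hB : B.det ≠ 0) :
    zf B K = ∫ z, (B * Bᵀ * (1 - mat (fderiv ℝ (proj K) z)) + mat (fderiv ℝ (proj K) z)).det
      * intg K z := by
  have h1 := cov h (eqv B hB)
  have e1 : ((eqv B hB : En n ≃L[ℝ] En n) : En n →L[ℝ] En n) = op B := rfl
  have e2 : ((eqv B hB).symm : En n → En n) = op B⁻¹ := rfl
  rw [e1, e2, op_det] at h1
  unfold zf
  rw [h1]
  congr 1
  ext z
  congr 1
  set P := fderiv ℝ (proj K) z
  have e3 : Mop ((op B).comp (ContinuousLinearMap.adjoint (op B))) P =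
      op (B * Bᵀ * (1 - mat P) + mat P) := by
    have e4 : ContinuousLinearMap.adjoint (op B) = op Bᵀ := by
      rw [← ContinuousLinearMap.star_eq_adjoint]
      have : star (op B) = op (star B) := (map_star _ _).symm
      rw [this, Matrix.star_eq_conjTranspose, Matrix.conjTranspose_eq_transpose_of_trivial]
    rw [e4]
    unfold Mop
    have e5 : op (B * Bᵀ * (1 - mat P) + mat P) = (op B).comp (op Bᵀ) * (1 - op (mat P)) +
        op (mat P) := by
      simp only [map_add, map_mul, map_sub, map_one]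
      rfl
    rw [e5, op_mat]
    rfl
  rw [e3, op_det]

/-- the tensor valued functional -/
noncomputable def SK (k : ℕ) (K : Set (En n)) : Ten k n :=
  ∫ z, intg K z • dens k (mat (fderiv ℝ (proj K) z))

/-- the part of degree `k` of `zf` -/
noncomputable def zq (k : ℕ) (B : Mat n) (K : Set (En n)) : ℝ :=
  ∑ j : Fin (n + 1), wt n k j * zf (Real.sqrt ((j : ℝ) + 1) • B) K

lemma smul_det_ne {B : Mat n} (hB : B.det ≠ 0) (j : ℕ) :
    (Real.sqrt ((j : ℝ) + 1) • B).det ≠ 0 := by
  rw [Matrix.det_smul]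
  exact mul_ne_zero (pow_ne_zero _ (Real.sqrt_ne_zero'.2 (by positivity))) hB

lemma zq_eq (hk : k ≤ n) {K : Set (En n)} (h : IsB K) {B : Mat n} (hB : B.det ≠ 0) :
    zq k B K = inner ℝ (lam k (B * Bᵀ)) (SK k K) := by
  unfold zq SK
  have hint : Integrable (fun z => intg K z • dens k (mat (fderiv ℝ (proj K) z))) :=
    integrable_comp h (G := fun P => dens k (mat P)) (dens_cont.comp mat_cont)
  rw [← integral_inner hint]
  have hz : ∀ j : Fin (n + 1), zf (Real.sqrt ((j : ℝ) + 1) • B) K = ∫ z, intg K z •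
      ((((j : ℝ) + 1) • (B * Bᵀ * (1 - mat (fderiv ℝ (proj K) z)))) +
        mat (fderiv ℝ (proj K) z)).det := by
    intro j
    rw [zf_eq h (smul_det_ne hB j)]
    congr 1
    ext z
    rw [smul_eq_mul, mul_comm]
    congr 3
    rw [Matrix.transpose_smul, Matrix.smul_mul, Matrix.mul_smul, smul_smul,
      Real.mul_self_sqrt (by positivity), Matrix.smul_mul]
  simp only [hz]
  simp only [← integral_const_mul]
  rw [← integral_finsetSum]
  · congr 1
    ext z
    rw [inner_smul_right, ← quad_eq hk, Finset.mul_sum]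
    refine Finset.sum_congr rfl fun j _ => ?_
    rw [smul_eq_mul]; ring
  · intro j _
    apply Integrable.const_mul
    refine integrable_comp h (G := fun P => ((((j : ℝ) + 1) • (B * Bᵀ * (1 - mat P))) +
        mat P).det) ?_
    apply Continuous.matrix_det
    have c1 : Continuous (fun P : En n →L[ℝ] En n => (1 : Mat n) - mat P) :=
      continuous_const.sub mat_cont
    have c2 : Continuous (fun P : En n →L[ℝ] En n => B * Bᵀ * (1 - mat P)) :=
      Continuous.matrix_mul continuous_const c1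
    have c3 : Continuous (fun P : En n →L[ℝ] En n => ((j : ℝ) + 1) • (B * Bᵀ * (1 - mat P))) :=
      (continuous_const_smul ((j : ℝ) + 1)).comp c2
    exact c3.add mat_cont

lemma op_inj {B : Mat n} (hB : B.det ≠ 0) : Function.Injective (op B) := (eqv B hB).injective

lemma inv_det_ne {B : Mat n} (hB : B.det ≠ 0) : (B⁻¹).det ≠ 0 := by
  intro h
  have := Matrix.det_nonsing_inv_mul_det B (isUnit_iff_ne_zero.2 hB)
  rw [h, zero_mul] at this
  exact zero_ne_one this

lemma IsB.op_image {K : Set (En n)} (h : IsB K) {B : Mat n} (hB : B.det ≠ 0) : IsB (op B '' K) :=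
  h.image (eqv B hB)

lemma zf_val {K L : Set (En n)} (hK : IsB K) (hL : IsB L) (hU : IsB (K ∪ L)) {B : Mat n}
    (hB : B.det ≠ 0) : zf B (K ∪ L) + zf B (K ∩ L) = zf B K + zf B L := by
  unfold zf
  have hi := inv_det_ne hB
  have hU' : IsB (op B⁻¹ '' K ∪ op B⁻¹ '' L) := by
    rw [← image_union]; exact hU.op_image hi
  have h := zeta_val (hK.op_image hi) (hL.op_image hi) hU'
  rw [image_union, image_inter (op_inj hi), ← mul_add, ← mul_add, h]

lemma zf_tendsto {K : ℕ → Set (En n)} {L : Set (En n)} {δ : ℕ → ℝ} (hK : ∀ j, IsB (K j))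
    (hL : IsB L) (hc : ∀ j, Close (δ j) (K j) L) (hδ : Tendsto δ atTop (𝓝 0)) {B : Mat n}
    (hB : B.det ≠ 0) : Tendsto (fun j => zf B (K j)) atTop (𝓝 (zf B L)) := by
  unfold zf
  have hi := inv_det_ne hB
  refine Tendsto.const_mul _ (zeta_tendsto (fun j => (hK j).op_image hi) (hL.op_image hi)
    (fun j => (hc j).image (op B⁻¹)) ?_)
  have := hδ.const_mul (‖op B⁻¹‖)
  simpa using this

lemma zq_val {K L : Set (En n)} (hK : IsB K) (hL : IsB L) (hU : IsB (K ∪ L)) {B : Mat n}
    (hB : B.det ≠ 0) : zq k B (K ∪ L) + zq k B (K ∩ L) = zq k B K + zq k B L := by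
  unfold zq
  rw [← Finset.sum_add_distrib, ← Finset.sum_add_distrib]
  refine Finset.sum_congr rfl fun j _ => ?_
  rw [← mul_add, ← mul_add, zf_val hK hL hU (smul_det_ne hB j)]

lemma zq_tendsto {K : ℕ → Set (En n)} {L : Set (En n)} {δ : ℕ → ℝ} (hK : ∀ j, IsB (K j))
    (hL : IsB L) (hc : ∀ j, Close (δ j) (K j) L) (hδ : Tendsto δ atTop (𝓝 0)) {B : Mat n}
    (hB : B.det ≠ 0) : Tendsto (fun j => zq k B (K j)) atTop (𝓝 (zq k B L)) := by
  unfold zq
  refine tendsto_finsetSum _ fun j _ => ?_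
  exact Tendsto.const_mul _ (zf_tendsto hK hL hc hδ (smul_det_ne hB j))

/-- equivariance of `zf` -/
lemma zf_equi (K : Set (En n)) {B g : Mat n} (hg : g.det = 1) :
    zf (g⁻¹ * B) K = zf B (op g '' K) := by
  unfold zf
  have hgu : IsUnit g.det := by rw [hg]; exact isUnit_one
  have h1 : (g⁻¹ * B).det = B.det := by
    rw [Matrix.det_mul, Matrix.det_nonsing_inv, hg]; simp
  have h2 : (g⁻¹ * B)⁻¹ = B⁻¹ * g := by
    rw [Matrix.mul_inv_rev, Matrix.nonsing_inv_nonsing_inv _ hgu]
  rw [h1, h2, op_mul, ← image_comp]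
  rfl

lemma zq_equi (K : Set (En n)) {B g : Mat n} (hg : g.det = 1) :
    zq k (g⁻¹ * B) K = zq k B (op g '' K) := by
  unfold zq
  refine Finset.sum_congr rfl fun j _ => ?_
  rw [← zf_equi K (B := Real.sqrt ((j : ℝ) + 1) • B) hg, Matrix.mul_smul]

end Pool.Agent.KS6_52.MV
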