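import Mathlib

/-! Definitions for the statement on highest weights admitting invariant Minkowski valuations. -/

namespace Pool.Agent.KS6_52.MV.Stmt

open Matrix

/-- `V = ℝⁿ`. -/
abbrev V (n : ℕ) := EuclideanSpace ℝ (Fin n)

/-- `K₀(V)`: convex bodies of `V` containing the origin in their interior, with the Hausdorff
metric. -/
abbrev K0 (n : ℕ) := {K : ConvexBody (V n) // (0 : V n) ∈ interior (K : Set (V n))}

/-- `SL(V)`. -/
abbrev SL (n : ℕ) := Matrix.SpecialLinearGroup (Fin n) ℝ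

/-- the linear map of `V` given by `g`. -/
noncomputable def lin {n : ℕ} (g : SL n) (x : V n) : V n :=
  WithLp.toLp 2 ((g : Matrix (Fin n) (Fin n) ℝ) *ᵥ x.ofLp)

variable {n : ℕ} {W : Type*} [NormedAddCommGroup W] [NormedSpace ℝ W]

/-- Minkowski valuation `K₀(V) → K(W)`. -/
def IsMinkowskiValuation (Φ : K0 n → ConvexBody W) : Prop :=
  ∀ K L U I : K0 n, (U.1 : Set (V n)) = (K.1 : Set (V n)) ∪ (L.1 : Set (V n)) →
    (I.1 : Set (V n)) = (K.1 : Set (V n)) ∩ (L.1 : Set (V n)) → Φ U + Φ I = Φ K + Φ L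

/-- invariance: `Φ (gK) = ρ(g) Φ(K)`. -/
def IsInvariantMap (ρ : Representation ℝ (SL n) W) (Φ : K0 n → ConvexBody W) : Prop :=
  ∀ (g : SL n) (K L : K0 n), (L.1 : Set (V n)) = lin g '' (K.1 : Set (V n)) →
    (Φ L : Set W) = ρ g '' (Φ K : Set W)

/-- `Φ` is non-trivial: `Φ(K) ≠ {0}` for some `K`. -/
def IsNontrivialMap (Φ : K0 n → ConvexBody W) : Prop := ∃ K, (Φ K : Set W) ≠ {0}

/-- rational representation: all matrix coefficients are polynomials in the entries of `g`. -/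
def IsRational (ρ : Representation ℝ (SL n) W) : Prop :=
  ∀ (φ : W →ₗ[ℝ] ℝ) (w : W), ∃ p : MvPolynomial (Fin n × Fin n) ℝ, ∀ g : SL n,
    φ (ρ g w) = MvPolynomial.eval (fun ij => (g : Matrix (Fin n) (Fin n) ℝ) ij.1 ij.2) p

/-- irreducible representation. -/
def IsIrred (ρ : Representation ℝ (SL n) W) : Prop :=
  Nontrivial W ∧ ∀ U : Submodule ℝ W, (∀ g, ∀ u ∈ U, ρ g u ∈ U) → U = ⊥ ∨ U = ⊤

/-- `∑ μᵢ εᵢ` is a highest weight of `ρ`: there is a nonzero vector fixed by all upper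
unitriangular matrices on which the diagonal matrices `t` act by `∏ tᵢ ^ μᵢ`. -/
def HasHighestWeight (ρ : Representation ℝ (SL n) W) (μ : Fin n → ℤ) : Prop :=
  ∃ w : W, w ≠ 0 ∧
    (∀ u : SL n, (∀ i j, j < i → (u : Matrix (Fin n) (Fin n) ℝ) i j = 0) →
      (∀ i, (u : Matrix (Fin n) (Fin n) ℝ) i i = 1) → ρ u w = w) ∧
    (∀ t : SL n, (∀ i j, i ≠ j → (t : Matrix (Fin n) (Fin n) ℝ) i j = 0) →
      ρ t w = (∏ i, (t : Matrix (Fin n) (Fin n) ℝ) i i ^ μ i) • w)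

/-- admissible: the highest weight is `(p+q) ε₁ + q (ε₂ + ⋯ + εₙ₋₁)` for some `p, q ≥ 0`. -/
def IsAdmissible (ρ : Representation ℝ (SL n) W) : Prop :=
  ∃ p q : ℕ, HasHighestWeight ρ (fun i =>
    if i.val = 0 then (p : ℤ) + q else if i.val + 1 = n then 0 else (q : ℤ))

end Pool.Agent.KS6_52.MV.Stmt
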