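import Mathlib
import Pool.Agent.KS6_52.MV.Quad
import Pool.Agent.KS6_52.MV.Defs

/-! The representation of `SL(k + m, ℝ)` spanned by the squares of decomposable `m`-vectors (with
the contragredient action): it is irreducible, with highest weight `2 (ε₁ + ⋯ + ε_k)`. -/

namespace Pool.Agent.KS6_52.MV.Rep

open Matrix Pool.Agent.KS6_52.MV
open scoped Kronecker

set_option maxHeartbeats 4000000

variable {n m k : ℕ}

/-- `m`-fold tensor power of a matrix -/
noncomputable def kp (m : ℕ) (g : Mat n) : Matrix (Ix m n) (Ix m n) ℝ :=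
  Matrix.of fun i j => ∏ a, g (i a) (j a)

lemma kp_apply (g : Mat n) (i j : Ix m n) : kp m g i j = ∏ a, g (i a) (j a) := rfl

lemma kp_mul (g h : Mat n) : kp m (g * h) = kp m g * kp m h := by
  ext i j
  simp only [kp_apply, Matrix.mul_apply]
  rw [Finset.prod_univ_sum, Fintype.piFinset_univ]
  refine Finset.sum_congr rfl fun l _ => ?_
  rw [Finset.prod_mul_distrib]

lemma kp_one : kp m (1 : Mat n) = 1 := by
  ext i j
  simp only [kp_apply, Matrix.one_apply]
  by_cases h : i = j
  · subst h; simp
  · rw [if_neg h]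
    obtain ⟨a, ha⟩ := Function.ne_iff.1 h
    exact Finset.prod_eq_zero (Finset.mem_univ a) (if_neg ha)

lemma kp_transpose (g : Mat n) : (kp m g)ᵀ = kp m gᵀ := by
  ext i j
  simp [kp_apply]

/-- the action on tensors -/
noncomputable def act (g : Mat n) : Ten m n →ₗ[ℝ] Ten m n :=
  Matrix.toEuclideanLin (kp m g ⊗ₖ kp m g)

lemma act_apply (g : Mat n) (x : Ten m n) (i j : Ix m n) :
    act g x (i, j) = ∑ i', ∑ j', kp m g i i' * kp m g j j' * x (i', j') := by
  simp only [act, Matrix.toLpLin_apply, Matrix.mulVec, dotProduct, Fintype.sum_prod_type,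
    Matrix.kroneckerMap_apply]

lemma act_mul (g h : Mat n) (x : Ten m n) : act (g * h) x = act g (act h x) := by
  unfold act
  rw [kp_mul, Matrix.mul_kronecker_mul]
  ext i
  simp [Matrix.toLpLin_apply, Matrix.mulVec_mulVec]

lemma act_one (x : Ten m n) : act 1 x = x := by
  unfold act
  rw [kp_one, Matrix.one_kronecker_one]
  ext i
  simp [Matrix.toLpLin_apply]

lemma inner_act (g : Mat n) (x y : Ten m n) : inner ℝ (act g x) y = inner ℝ x (act gᵀ y) := by
  unfold act
  have h : (kp m gᵀ ⊗ₖ kp m gᵀ) = (kp m g ⊗ₖ kp m g)ᵀ := by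
    rw [← kp_transpose]
    ext ⟨i, j⟩ ⟨i', j'⟩
    rfl
  rw [h]
  simp only [EuclideanSpace.inner_eq_star_dotProduct, star_trivial]
  simp only [Matrix.toLpLin_apply]
  rw [Matrix.dotProduct_mulVec, Matrix.mulVec_transpose]

/-- coordinates of the `m`-vector `X 0 ∧ ⋯ ∧ X (m - 1)` -/
noncomputable def pl (X : Matrix (Fin m) (Fin n) ℝ) (i : Ix m n) : ℝ := (X.submatrix id i).det

lemma pl_left (M : Mat m) (X : Matrix (Fin m) (Fin n) ℝ) (i : Ix m n) :
    pl (M * X) i = M.det * pl X i := by
  unfold pl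
  rw [← Matrix.det_mul]
  congr 1

lemma pl_right (X : Matrix (Fin m) (Fin n) ℝ) (g : Mat n) (i : Ix m n) :
    pl (X * gᵀ) i = ∑ l : Ix m n, kp m g i l * pl X l := by
  have h1 : pl (X * gᵀ) i = (detRowAlternating (n := Fin m) (R := ℝ))
      (fun a => ∑ c : Fin n, g (i a) c • (fun b => X b c)) := by
    unfold pl
    rw [← Matrix.det_transpose]
    have e : ((X * gᵀ).submatrix id i)ᵀ = (fun a => ∑ c : Fin n, g (i a) c • (fun b => X b c) :
        Matrix (Fin m) (Fin m) ℝ) := by
      ext a b
      simp only [Matrix.transpose_apply, Matrix.submatrix_apply, id_eq, Matrix.mul_apply,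
        Finset.sum_apply, Pi.smul_apply, smul_eq_mul]
      refine Finset.sum_congr rfl fun c _ => by ring
    rw [e]
    rfl
  rw [h1]
  have h2 := (detRowAlternating (n := Fin m) (R := ℝ)).toMultilinearMap.map_sum
    (fun a (c : Fin n) => g (i a) c • (fun b => X b c))
  refine h2.trans (Finset.sum_congr rfl fun l _ => ?_)
  have h3 := (detRowAlternating (n := Fin m) (R := ℝ)).toMultilinearMap.map_smul_univ
    (fun a => g (i a) (l a)) (fun a => (fun b => X b (l a)))
  refine h3.trans ?_
  rw [smul_eq_mul, kp_apply]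
  congr 1
  unfold pl
  rw [← Matrix.det_transpose]
  rfl

/-- the square of a decomposable `m`-vector -/
noncomputable def sq (X : Matrix (Fin m) (Fin n) ℝ) : Ten m n :=
  WithLp.toLp 2 (fun p => pl X p.1 * pl X p.2)

lemma sq_apply (X : Matrix (Fin m) (Fin n) ℝ) (i j : Ix m n) : sq X (i, j) = pl X i * pl X j := rfl

lemma sq_left (M : Mat m) (X : Matrix (Fin m) (Fin n) ℝ) : sq (M * X) = M.det ^ 2 • sq X := by
  ext ⟨i, j⟩
  rw [PiLp.smul_apply, sq_apply, sq_apply, pl_left, pl_left, smul_eq_mul]
  ring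

lemma act_sq (g : Mat n) (X : Matrix (Fin m) (Fin n) ℝ) : act g (sq X) = sq (X * gᵀ) := by
  ext ⟨i, j⟩
  rw [act_apply, sq_apply, pl_right, pl_right, Finset.sum_mul_sum]
  refine Finset.sum_congr rfl fun i' _ => Finset.sum_congr rfl fun j' _ => ?_
  rw [sq_apply]
  ring

lemma lam_apply (A : Mat n) (i j : Ix m n) : lam m A (i, j) = (A.submatrix i j).det := rfl

/-- `g ⬝ lam A = lam (g A gᵀ)` -/
lemma act_lam (g A : Mat n) : act g (lam m A) = lam m (g * A * gᵀ) := by
  ext ⟨i, j⟩
  rw [act_apply]
  show _ = ((g * A * gᵀ).submatrix i j).det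
  have h1 : ((g * A * gᵀ).submatrix i j).det = ∑ l : Ix m n, kp m g j l *
      ((g * A).submatrix i l).det := by
    have := pl_right ((g * A).submatrix i id) g j
    have e1 : pl ((g * A).submatrix i id * gᵀ) j = ((g * A * gᵀ).submatrix i j).det := by
      unfold pl
      congr 1
    rw [e1] at this
    rw [this]
    rfl
  have h2 : ∀ l : Ix m n, ((g * A).submatrix i l).det = ∑ l' : Ix m n, kp m g i l' *
      (A.submatrix l' l).det := by
    intro l
    have := pl_right ((Aᵀ).submatrix l id) g i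
    have e1 : pl ((Aᵀ).submatrix l id * gᵀ) i = ((g * A).submatrix i l).det := by
      unfold pl
      rw [← Matrix.det_transpose]
      congr 1
      ext a b
      simp only [Matrix.transpose_apply, Matrix.submatrix_apply, id_eq, Matrix.mul_apply]
      refine Finset.sum_congr rfl fun c _ => by ring
    rw [e1] at this
    rw [this]
    refine Finset.sum_congr rfl fun l' _ => ?_
    congr 1
    unfold pl
    rw [← Matrix.det_transpose]
    rfl
  rw [h1]
  simp only [h2, Finset.mul_sum]
  rw [Finset.sum_comm]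
  refine Finset.sum_congr rfl fun i' _ => Finset.sum_congr rfl fun j' _ => ?_
  rw [lam_apply]
  ring

/-- the space spanned by squares of decomposable `m`-vectors -/
noncomputable def W (m n : ℕ) : Submodule ℝ (Ten m n) :=
  Submodule.span ℝ (Set.range (sq (n := n) (m := m)))

lemma sq_mem (X : Matrix (Fin m) (Fin n) ℝ) : sq X ∈ W m n := Submodule.subset_span ⟨X, rfl⟩

lemma act_mem (g : Mat n) {x : Ten m n} (hx : x ∈ W m n) : act g x ∈ W m n := by
  have : W m n ≤ (W m n).comap (act g) := by
    refine Submodule.span_le.2 ?_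
    rintro _ ⟨p, rfl⟩
    simp only [SetLike.mem_coe, Submodule.mem_comap]
    rw [act_sq]
    exact sq_mem _
  exact this hx

lemma sq_cont : Continuous (sq (n := n) (m := m)) := by
  unfold sq
  refine (PiLp.continuous_toLp 2 _).comp ?_
  refine continuous_pi fun p => ?_
  unfold pl
  refine Continuous.mul ?_ ?_
  · exact Continuous.matrix_det (continuous_id.matrix_submatrix _ _)
  · exact Continuous.matrix_det (continuous_id.matrix_submatrix _ _)

/-! ### The representation -/

/-- the special linear group -/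
abbrev SLn (n : ℕ) := Matrix.SpecialLinearGroup (Fin n) ℝ

/-- the transpose in `SL` -/
def tr (g : SLn n) : SLn n := ⟨(g : Mat n)ᵀ, by rw [Matrix.det_transpose]; exact g.2⟩

lemma tr_inv_coe (g : SLn n) : (((tr g)⁻¹ : SLn n) : Mat n) = (((g⁻¹ : SLn n) : Mat n))ᵀ := by
  rw [Matrix.SpecialLinearGroup.coe_inv, Matrix.SpecialLinearGroup.coe_inv]
  show Matrix.adjugate ((g : Mat n)ᵀ) = _
  rw [Matrix.adjugate_transpose]

/-- the representation of `SL(n)` on `W`, contragredient to the natural action -/
noncomputable def rho (m n : ℕ) : Representation ℝ (SLn n) (W m n) where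
  toFun g := ((act (((g⁻¹ : SLn n) : Mat n)ᵀ)).domRestrict (W m n)).codRestrict (W m n)
    (fun x => act_mem _ x.2)
  map_one' := by
    ext x
    simp [act_one]
  map_mul' g h := by
    apply LinearMap.ext
    intro x
    apply Subtype.ext
    show act ((((g * h)⁻¹ : SLn n) : Mat n)ᵀ) (x : Ten m n) = act (((g⁻¹ : SLn n) : Mat n)ᵀ)
      (act (((h⁻¹ : SLn n) : Mat n)ᵀ) (x : Ten m n))
    rw [← act_mul, _root_.mul_inv_rev, Matrix.SpecialLinearGroup.coe_mul, Matrix.transpose_mul]

lemma rho_coe (g : SLn n) (x : W m n) :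
    (rho m n g x : Ten m n) = act (((g⁻¹ : SLn n) : Mat n)ᵀ) (x : Ten m n) := rfl

lemma rho_adj (g : SLn n) (x y : W m n) : inner ℝ (rho m n g x) y = inner ℝ x (rho m n (tr g) y) := by
  rw [Submodule.coe_inner, Submodule.coe_inner, rho_coe, rho_coe, inner_act,
    Matrix.transpose_transpose, tr_inv_coe, Matrix.transpose_transpose]

lemma perp_W {x : W m n} (h : ∀ X, inner ℝ (x : Ten m n) (sq X) = 0) : x = 0 := by
  have h2 : ∀ y ∈ W m n, inner ℝ (x : Ten m n) y = 0 := by
    intro y hy
    induction hy using Submodule.span_induction with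
    | mem y hy => obtain ⟨p, rfl⟩ := hy; exact h _
    | zero => simp
    | add y z _ _ hy hz => rw [inner_add_right, hy, hz, add_zero]
    | smul c y _ hy => rw [inner_smul_right, hy, mul_zero]
  have h3 := h2 x x.2
  rw [inner_self_eq_zero] at h3
  exact Subtype.ext h3

end Pool.Agent.KS6_52.MV.Rep
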