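import Mathlib
import Pool.Agent.KS6_52.MV.Rep

/-! The highest weight vector, irreducibility, rationality and non-admissibility. -/

namespace Pool.Agent.KS6_52.MV.Rep

open Matrix Pool.Agent.KS6_52.MV Filter Topology
open scoped Kronecker

set_option maxHeartbeats 4000000

variable {n m k : ℕ}

/-- the last `m` basis vectors -/
noncomputable def E0 (k m : ℕ) : Matrix (Fin m) (Fin (k + m)) ℝ :=
  Matrix.of fun b c => if c = Fin.natAdd k b then 1 else 0

lemma E0_apply (b : Fin m) (c : Fin (k + m)) :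
    E0 k m b c = if c = Fin.natAdd k b then 1 else 0 := rfl

/-- the last block -/
def blk (X : Matrix (Fin m) (Fin (k + m)) ℝ) : Mat m := X.submatrix id (Fin.natAdd k)

lemma blk_apply (X : Matrix (Fin m) (Fin (k + m)) ℝ) (a b : Fin m) :
    blk X a b = X a (Fin.natAdd k b) := rfl

lemma E0_mul (A : Mat (k + m)) : E0 k m * A = A.submatrix (Fin.natAdd k) id := by
  ext b c
  simp only [Matrix.mul_apply, E0_apply, Matrix.submatrix_apply, id_eq]
  rw [Finset.sum_eq_single (Fin.natAdd k b)]
  · simp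
  · intro x _ hx; rw [if_neg hx, zero_mul]
  · intro h; exact absurd (Finset.mem_univ _) h

lemma blk_E0 : blk (E0 k m) = 1 := by
  ext a b
  rw [blk_apply, E0_apply, Matrix.one_apply]
  by_cases h : a = b
  · subst h; simp
  · rw [if_neg h, if_neg]
    intro h2
    exact h ((Fin.natAdd_injective m k h2).symm)

lemma mul_E0 (M : Mat m) (a : Fin m) (c : Fin (k + m)) :
    (M * E0 k m) a c = Fin.addCases (fun _ => 0) (fun b => M a b) c := by
  refine Fin.addCases (fun c' => ?_) (fun b => ?_) c
  · rw [Fin.addCases_left, Matrix.mul_apply]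
    refine Finset.sum_eq_zero fun x _ => ?_
    rw [E0_apply, if_neg, mul_zero]
    intro h
    have := congrArg Fin.val h
    simp at this
    omega
  · rw [Fin.addCases_right, Matrix.mul_apply, Finset.sum_eq_single b]
    · rw [E0_apply, if_pos rfl, mul_one]
    · intro x _ hx
      rw [E0_apply, if_neg, mul_zero]
      intro h2
      exact hx ((Fin.natAdd_injective m k h2).symm)
    · intro h; exact absurd (Finset.mem_univ _) h

lemma sq_block {X : Matrix (Fin m) (Fin (k + m)) ℝ} (h : ∀ b c', X b (Fin.castAdd m c') = 0) :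
    sq X = (blk X).det ^ 2 • sq (E0 k m) := by
  rw [← sq_left]
  congr 1
  ext a c
  rw [mul_E0]
  refine Fin.addCases (fun c' => ?_) (fun b => ?_) c
  · rw [Fin.addCases_left, h]
  · rw [Fin.addCases_right, blk_apply]

/-- the highest weight vector -/
noncomputable def v0 (k m : ℕ) : W m (k + m) := ⟨sq (E0 k m), sq_mem _⟩

lemma v0_inner_ne : inner ℝ (v0 k m : Ten m (k + m)) (v0 k m : Ten m (k + m)) ≠ 0 := by
  intro h
  rw [inner_self_eq_zero] at h
  have h2 : (v0 k m : Ten m (k + m)) (Fin.natAdd k, Fin.natAdd k) = 0 := by rw [h]; rfl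
  have h3 : (v0 k m : Ten m (k + m)) (Fin.natAdd k, Fin.natAdd k) =
      (blk (E0 k m)).det * (blk (E0 k m)).det := rfl
  rw [h3, blk_E0, Matrix.det_one] at h2
  norm_num at h2

/-- upper unitriangular matrix sending the last `m` basis vectors to the rows of `X` -/
noncomputable def upm (X : Matrix (Fin m) (Fin (k + m)) ℝ) : Mat (k + m) :=
  Matrix.of fun r c => Fin.addCases (fun c' => (1 : Mat (k + m)) r (Fin.castAdd m c'))
    (fun b => X b r) c

lemma upm_left (X : Matrix (Fin m) (Fin (k + m)) ℝ) (r : Fin (k + m)) (c' : Fin k) :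
    upm X r (Fin.castAdd m c') = (1 : Mat (k + m)) r (Fin.castAdd m c') := by
  unfold upm
  rw [Matrix.of_apply, Fin.addCases_left]

lemma upm_right (X : Matrix (Fin m) (Fin (k + m)) ℝ) (r : Fin (k + m)) (b : Fin m) :
    upm X r (Fin.natAdd k b) = X b r := by
  unfold upm
  rw [Matrix.of_apply, Fin.addCases_right]

lemma E0_upm (X : Matrix (Fin m) (Fin (k + m)) ℝ) : E0 k m * (upm X)ᵀ = X := by
  rw [E0_mul]
  ext b c
  rw [Matrix.submatrix_apply, Matrix.transpose_apply, upm_right, id_eq]

lemma upm_upper {X : Matrix (Fin m) (Fin (k + m)) ℝ} (hX : blk X = 1) (i j : Fin (k + m))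
    (hij : j < i) : upm X i j = 0 := by
  induction j using Fin.addCases with
  | left c' => rw [upm_left, Matrix.one_apply_ne hij.ne']
  | right b =>
    rw [upm_right]
    induction i using Fin.addCases with
    | left c' =>
      exfalso
      rw [Fin.lt_def] at hij
      simp at hij
      omega
    | right b' =>
      have h1 := congrFun (congrFun hX b) b'
      rw [blk_apply] at h1
      rw [h1, Matrix.one_apply_ne]
      rintro rfl
      exact lt_irrefl _ hij

lemma upm_diag {X : Matrix (Fin m) (Fin (k + m)) ℝ} (hX : blk X = 1) (i : Fin (k + m)) :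
    upm X i i = 1 := by
  induction i using Fin.addCases with
  | left c' => rw [upm_left, Matrix.one_apply_eq]
  | right b =>
    rw [upm_right]
    have h1 := congrFun (congrFun hX b) b
    rw [blk_apply, Matrix.one_apply_eq] at h1
    exact h1

lemma det_upper {N : ℕ} {M : Mat N} (h1 : ∀ i j, j < i → M i j = 0) (h2 : ∀ i, M i i = 1) :
    M.det = 1 := by
  rw [Matrix.det_of_upperTriangular (fun i j hij => h1 i j hij)]
  simp [h2]

/-- `upm` in `SL` -/
noncomputable def upS {X : Matrix (Fin m) (Fin (k + m)) ℝ} (hX : blk X = 1) : SLn (k + m) :=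
  ⟨upm X, det_upper (upm_upper hX) (upm_diag hX)⟩

lemma sq_of_blk {X : Matrix (Fin m) (Fin (k + m)) ℝ} (h : (blk X).det ≠ 0) :
    ∃ (Y : Matrix (Fin m) (Fin (k + m)) ℝ) (hY : blk Y = 1),
      sq X = (blk X).det ^ 2 • act ((upS hY : SLn (k + m)) : Mat (k + m)) (sq (E0 k m)) := by
  have hu : IsUnit (blk X).det := isUnit_iff_ne_zero.2 h
  refine ⟨(blk X)⁻¹ * X, ?_, ?_⟩
  · have : blk ((blk X)⁻¹ * X) = (blk X)⁻¹ * blk X := by
      ext a b; rfl
    rw [this, Matrix.nonsing_inv_mul _ hu]
  · rw [act_sq]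
    have e : E0 k m * (upm ((blk X)⁻¹ * X))ᵀ = (blk X)⁻¹ * X := E0_upm _
    show sq X = (blk X).det ^ 2 • sq (E0 k m * (upm ((blk X)⁻¹ * X))ᵀ)
    rw [e, ← sq_left, ← Matrix.mul_assoc, Matrix.mul_nonsing_inv _ hu, Matrix.one_mul]

lemma det_event (M : Mat m) : ∀ᶠ t in 𝓝[≠] (0:ℝ), (M + t • (1 : Mat m)).det ≠ 0 := by
  have hp : (-M).charpoly ≠ 0 := (Matrix.charpoly_monic _).ne_zero
  have hfin : ({t : ℝ | (-M).charpoly.IsRoot t} \ {0}).Finite :=
    (Polynomial.finite_setOf_isRoot hp).subset Set.diff_subset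
  have hmem : ({t : ℝ | (-M).charpoly.IsRoot t} \ {0})ᶜ ∈ 𝓝 (0:ℝ) :=
    hfin.isClosed.isOpen_compl.mem_nhds (by simp)
  filter_upwards [mem_nhdsWithin_of_mem_nhds hmem, self_mem_nhdsWithin] with t ht h0 hdet
  apply ht
  refine ⟨?_, h0⟩
  show (-M).charpoly.IsRoot t
  rw [Polynomial.IsRoot, Matrix.eval_charpoly, ← hdet]
  congr 1
  ext i j
  simp [Matrix.scalar_apply, Matrix.smul_apply, Matrix.one_apply, Matrix.diagonal_apply, add_comm]

/-- extension from the generic set -/
lemma generic_ext {x : Ten m (k + m)} {c : ℝ}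
    (h : ∀ X, (blk X).det ≠ 0 → inner ℝ x (sq X) = (blk X).det ^ 2 * c)
    (X : Matrix (Fin m) (Fin (k + m)) ℝ) :
    inner ℝ x (sq X) = (blk X).det ^ 2 * c := by
  let Y : ℝ → Matrix (Fin m) (Fin (k + m)) ℝ := fun t => X + t • E0 k m
  have hY : Continuous Y := continuous_const.add (continuous_id.smul continuous_const)
  have hb : ∀ t, blk (Y t) = blk X + t • (1 : Mat m) := by
    intro t
    rw [← blk_E0 (k := k)]
    rfl
  have h1 : Continuous (fun t => inner ℝ x (sq (Y t))) :=
    continuous_const.inner (sq_cont.comp hY)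
  have h2 : Continuous (fun t => (blk (Y t)).det ^ 2 * c) := by
    simp only [hb]
    exact ((Continuous.matrix_det (continuous_const.add
      (continuous_id.smul continuous_const))).pow 2).mul continuous_const
  have e0 : Y 0 = X := by simp [Y]
  have hev : (fun t => inner ℝ x (sq (Y t))) =ᶠ[𝓝[≠] (0:ℝ)] (fun t => (blk (Y t)).det ^ 2 * c) := by
    filter_upwards [det_event (blk X)] with t ht
    exact h _ (by rw [hb]; exact ht)
  have t1 : Tendsto (fun t => inner ℝ x (sq (Y t))) (𝓝[≠] (0:ℝ)) (𝓝 (inner ℝ x (sq X))) := by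
    have := (h1.tendsto 0).mono_left (nhdsWithin_le_nhds (s := {0}ᶜ))
    rwa [e0] at this
  have t2 : Tendsto (fun t => (blk (Y t)).det ^ 2 * c) (𝓝[≠] (0:ℝ)) (𝓝 ((blk X).det ^ 2 * c)) := by
    have := (h2.tendsto 0).mono_left (nhdsWithin_le_nhds (s := {0}ᶜ))
    rwa [e0] at this
  exact tendsto_nhds_unique (t1.congr' hev) t2

lemma act_tr_rho (g : SLn n) (x : W m n) : act ((g : Mat n)ᵀ) (rho m n g x : Ten m n) = x := by
  rw [rho_coe, ← act_mul, ← Matrix.transpose_mul, ← Matrix.SpecialLinearGroup.coe_mul,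
    inv_mul_cancel, Matrix.SpecialLinearGroup.coe_one, Matrix.transpose_one, act_one]

/-- vectors orthogonal to the orbit of `v0` vanish -/
lemma perp_orbit {x : W m (k + m)} (h : ∀ g : SLn (k + m), inner ℝ x (rho m _ g (v0 k m)) = 0) :
    x = 0 := by
  apply perp_W
  intro X
  have := generic_ext (x := (x : Ten m (k + m))) (c := 0) (fun X hX => ?_) X
  · rw [this]; ring
  · obtain ⟨Y, hY, hs⟩ := sq_of_blk hX
    rw [hs, inner_smul_right]
    have h1 := h (tr (upS hY))⁻¹
    rw [Submodule.coe_inner, rho_coe, inv_inv] at h1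
    have e : (((tr (upS hY) : SLn (k + m)) : Mat (k + m)))ᵀ = ((upS hY : SLn (k + m)) : Mat (k + m)) :=
      Matrix.transpose_transpose _
    rw [e] at h1
    have h2 : act ((upS hY : SLn (k + m)) : Mat (k + m)) (sq (E0 k m)) =
      act ((upS hY : SLn (k + m)) : Mat (k + m)) (v0 k m : Ten m (k + m)) := rfl
    rw [h2, h1]

lemma rho_of_act {g : SLn (k + m)} {c d : ℝ}
    (h : act ((g : Mat (k + m))ᵀ) (v0 k m : Ten m (k + m)) = c • (v0 k m : Ten m (k + m)))
    (hcd : c * d = 1) : rho m _ g (v0 k m) = d • (v0 k m) := by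
  have h1 : rho m _ g⁻¹ (v0 k m) = c • (v0 k m) := by
    apply Subtype.ext
    rw [rho_coe, inv_inv, h]; rfl
  have h2 : rho m _ g (rho m _ g⁻¹ (v0 k m)) = v0 k m := by
    rw [← Module.End.mul_apply, ← map_mul, mul_inv_cancel, map_one]; rfl
  rw [h1, map_smul] at h2
  calc rho m _ g (v0 k m) = (c * d) • rho m _ g (v0 k m) := by rw [hcd, one_smul]
    _ = d • (c • rho m _ g (v0 k m)) := by rw [smul_smul, mul_comm]
    _ = d • v0 k m := by rw [h2]

lemma v0_fixed {u : SLn (k + m)} (h1 : ∀ i j, j < i → (u : Mat (k + m)) i j = 0)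
    (h2 : ∀ i, (u : Mat (k + m)) i i = 1) : rho m _ u (v0 k m) = v0 k m := by
  have h : act ((u : Mat (k + m))ᵀ) (v0 k m : Ten m (k + m)) = (1:ℝ) • (v0 k m : Ten m (k + m)) := by
    show act ((u : Mat (k + m))ᵀ) (sq (E0 k m)) = (1:ℝ) • sq (E0 k m)
    rw [act_sq, Matrix.transpose_transpose, E0_mul, sq_block]
    · have hd : (blk ((u : Mat (k + m)).submatrix (Fin.natAdd k) id)).det = 1 := by
        apply det_upper
        · intro i j hij
          exact h1 _ _ (by rw [Fin.lt_def]; simpa using hij)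
        · intro i
          exact h2 _
      rw [hd, one_pow]
    · intro b c'
      exact h1 _ _ (by rw [Fin.lt_def]; simp; omega)
  rw [rho_of_act h (one_mul 1), one_smul]

lemma v0_torus {t : SLn (k + m)} (h1 : ∀ i j, i ≠ j → (t : Mat (k + m)) i j = 0) :
    rho m _ t (v0 k m) = ((∏ a : Fin k, (t : Mat (k + m)) (Fin.castAdd m a) (Fin.castAdd m a)) ^ 2) •
      (v0 k m) := by
  have hdiag : (t : Mat (k + m)) = Matrix.diagonal (fun i => (t : Mat (k + m)) i i) := by
    ext i j
    by_cases hij : i = j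
    · subst hij; simp
    · rw [h1 i j hij, Matrix.diagonal_apply_ne _ hij]
  have hdet : (∏ a : Fin k, (t : Mat (k + m)) (Fin.castAdd m a) (Fin.castAdd m a)) *
      (∏ b : Fin m, (t : Mat (k + m)) (Fin.natAdd k b) (Fin.natAdd k b)) = 1 := by
    have hd : (t : Mat (k + m)).det = 1 := t.2
    have : (t : Mat (k + m)).det = ∏ i, (t : Mat (k + m)) i i := by
      conv_lhs => rw [hdiag]
      rw [Matrix.det_diagonal]
    rw [this, Fin.prod_univ_add] at hd
    exact hd
  have h : act ((t : Mat (k + m))ᵀ) (v0 k m : Ten m (k + m)) =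
      ((∏ b : Fin m, (t : Mat (k + m)) (Fin.natAdd k b) (Fin.natAdd k b)) ^ 2) •
        (v0 k m : Ten m (k + m)) := by
    show act ((t : Mat (k + m))ᵀ) (sq (E0 k m)) = _ • sq (E0 k m)
    rw [act_sq, Matrix.transpose_transpose, E0_mul, sq_block]
    · congr 2
      have e : blk ((t : Mat (k + m)).submatrix (Fin.natAdd k) id) =
          Matrix.diagonal (fun b : Fin m => (t : Mat (k + m)) (Fin.natAdd k b) (Fin.natAdd k b)) := by
        ext a b
        rw [blk_apply, Matrix.submatrix_apply, id_eq, Matrix.diagonal_apply]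
        by_cases hab : a = b
        · subst hab; simp
        · rw [if_neg hab]
          exact h1 _ _ (fun h2 => hab (Fin.natAdd_injective m k h2))
      rw [e, Matrix.det_diagonal]
    · intro b c'
      refine h1 _ _ ?_
      intro h2
      have := congrArg Fin.val h2
      simp at this
      omega
  apply rho_of_act h
  rw [← mul_pow, mul_comm, hdet, one_pow]

/-- vectors fixed by the upper unitriangular group are multiples of `v0` -/
lemma fixed_unique {x : W m (k + m)} (h : ∀ u : SLn (k + m),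
    (∀ i j, j < i → (u : Mat (k + m)) i j = 0) →
    (∀ i, (u : Mat (k + m)) i i = 1) → rho m _ u x = x) : ∃ c : ℝ, x = c • v0 k m := by
  have key : ∀ y : W m (k + m), (∀ u : SLn (k + m), (∀ i j, j < i → (u : Mat (k + m)) i j = 0) →
    (∀ i, (u : Mat (k + m)) i i = 1) → rho m _ u y = y) → ∀ X,
      inner ℝ (y : Ten m (k + m)) (sq X) =
        (blk X).det ^ 2 * inner ℝ (y : Ten m (k + m)) (v0 k m : Ten m (k + m)) := by
    intro y hy
    apply generic_ext
    intro X hX
    obtain ⟨Y, hY, hs⟩ := sq_of_blk hX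
    rw [hs, inner_smul_right]
    congr 1
    have h2 : rho m _ (upS hY) y = y := hy _ (upm_upper hY) (upm_diag hY)
    have h3 := act_tr_rho (upS hY) y
    rw [h2] at h3
    have h4 := inner_act (((upS hY : SLn (k + m)) : Mat (k + m))ᵀ) (y : Ten m (k + m)) (sq (E0 k m))
    rw [Matrix.transpose_transpose, h3] at h4
    exact h4.symm
  have hv : ∀ u : SLn (k + m), (∀ i j, j < i → (u : Mat (k + m)) i j = 0) →
    (∀ i, (u : Mat (k + m)) i i = 1) → rho m _ u (v0 k m) = v0 k m := fun u h1 h2 => v0_fixed h1 h2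
  refine ⟨inner ℝ (x : Ten m (k + m)) (v0 k m : Ten m (k + m)) /
    inner ℝ (v0 k m : Ten m (k + m)) (v0 k m : Ten m (k + m)), ?_⟩
  rw [← sub_eq_zero]
  apply perp_W
  intro X
  rw [Submodule.coe_sub, Submodule.coe_smul, inner_sub_left, inner_smul_left, key x h, key _ hv]
  have := v0_inner_ne (k := k) (m := m)
  simp only [conj_trivial]
  field_simp
  ring

/-- `rho` is irreducible -/
lemma rho_irred : Nontrivial (W m (k + m)) ∧ ∀ U : Submodule ℝ (W m (k + m)),
    (∀ g, ∀ u ∈ U, rho m _ g u ∈ U) → U = ⊥ ∨ U = ⊤ := by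
  refine ⟨⟨v0 k m, 0, fun h => v0_inner_ne (k := k) (m := m) (by rw [h]; simp)⟩, fun U hU => ?_⟩
  have hUp : ∀ g, ∀ u ∈ Uᗮ, rho m _ g u ∈ Uᗮ := by
    intro g u hu
    rw [Submodule.mem_orthogonal] at hu ⊢
    intro y hy
    have h1 := hu _ (hU (tr g) y hy)
    rw [rho_adj] at h1
    have h2 : tr (tr g) = g := by
      apply Subtype.ext; simp [tr]
    rwa [h2] at h1
  have hdec : ∀ u : SLn (k + m), (∀ i j, j < i → (u : Mat (k + m)) i j = 0) →
      (∀ i, (u : Mat (k + m)) i i = 1) →
      rho m _ u (U.starProjection (v0 k m)) = U.starProjection (v0 k m) := by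
    intro u h1 h2
    have hf := v0_fixed h1 h2
    have hd : v0 k m - U.starProjection (v0 k m) ∈ Uᗮ := Submodule.sub_starProjection_mem_orthogonal _
    have hm : U.starProjection (v0 k m) ∈ U := Submodule.starProjection_apply_mem U _
    symm
    apply Submodule.eq_starProjection_of_mem_of_inner_eq_zero
    · exact hU _ _ hm
    · intro w hw
      have h3 : v0 k m - rho m _ u (U.starProjection (v0 k m)) =
          rho m _ u (v0 k m - U.starProjection (v0 k m)) := by
        rw [map_sub, hf]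
      rw [h3]
      exact (Submodule.mem_orthogonal' _ _).1 (hUp u _ hd) w hw
  obtain ⟨c, hc⟩ := fixed_unique hdec
  by_cases h0 : c = 0
  · left
    rw [h0, zero_smul] at hc
    have hv : v0 k m ∈ Uᗮ := (Submodule.starProjection_apply_eq_zero_iff U).1 hc
    rw [eq_bot_iff]
    intro x hx
    rw [Submodule.mem_bot]
    apply perp_orbit
    intro g
    exact (Submodule.mem_orthogonal _ _).1 (hUp g _ hv) x hx
  · right
    have hv : v0 k m ∈ U := by
      have : v0 k m = c⁻¹ • U.starProjection (v0 k m) := by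
        rw [hc, smul_smul, inv_mul_cancel₀ h0, one_smul]
      rw [this]
      exact U.smul_mem _ (Submodule.starProjection_apply_mem U _)
    have : Uᗮ = ⊥ := by
      rw [eq_bot_iff]
      intro x hx
      rw [Submodule.mem_bot]
      apply perp_orbit
      intro g
      exact (Submodule.mem_orthogonal' _ _).1 hx _ (hU g _ hv)
    exact (Submodule.orthogonal_eq_bot_iff).1 this

end Pool.Agent.KS6_52.MV.Rep
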