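import Mathlib
import Pool.Agent.KS6_52.MV.Rep2

/-! `rho` is rational, has highest weight `2 (ε₁ + ⋯ + ε_k)`, and is not admissible if `k, m ≥ 2`. -/

namespace Pool.Agent.KS6_52.MV.Rep

open Matrix Pool.Agent.KS6_52.MV Pool.Agent.KS6_52.MV.Stmt

set_option maxHeartbeats 4000000

variable {n m k : ℕ}

/-- polynomial functions on `SL(n)` -/
def IsPoly (f : SLn n → ℝ) : Prop := ∃ p : MvPolynomial (Fin n × Fin n) ℝ, ∀ g : SLn n,
  f g = MvPolynomial.eval (fun ij => (g : Mat n) ij.1 ij.2) p

lemma IsPoly.const (c : ℝ) : IsPoly (n := n) (fun _ => c) := ⟨MvPolynomial.C c, fun g => by simp⟩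

lemma IsPoly.add {f g : SLn n → ℝ} (hf : IsPoly f) (hg : IsPoly g) : IsPoly (fun x => f x + g x) := by
  obtain ⟨p, hp⟩ := hf; obtain ⟨q, hq⟩ := hg
  exact ⟨p + q, fun x => by rw [map_add, ← hp, ← hq]⟩

lemma IsPoly.mul {f g : SLn n → ℝ} (hf : IsPoly f) (hg : IsPoly g) : IsPoly (fun x => f x * g x) := by
  obtain ⟨p, hp⟩ := hf; obtain ⟨q, hq⟩ := hg
  exact ⟨p * q, fun x => by rw [map_mul, ← hp, ← hq]⟩

lemma IsPoly.sum {ι : Type*} (s : Finset ι) {f : ι → SLn n → ℝ} (hf : ∀ i ∈ s, IsPoly (f i)) :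
    IsPoly (fun x => ∑ i ∈ s, f i x) := by
  classical
  induction s using Finset.induction_on with
  | empty => simpa using IsPoly.const 0
  | insert a s ha ih =>
    simp only [Finset.sum_insert ha]
    exact (hf a (by simp)).add (ih fun i hi => hf i (by simp [hi]))

lemma IsPoly.prod {ι : Type*} (s : Finset ι) {f : ι → SLn n → ℝ} (hf : ∀ i ∈ s, IsPoly (f i)) :
    IsPoly (fun x => ∏ i ∈ s, f i x) := by
  classical
  induction s using Finset.induction_on with
  | empty => simpa using IsPoly.const 1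
  | insert a s ha ih =>
    simp only [Finset.prod_insert ha]
    exact (hf a (by simp)).mul (ih fun i hi => hf i (by simp [hi]))

lemma IsPoly.entry (i j : Fin n) : IsPoly (fun g : SLn n => (g : Mat n) i j) :=
  ⟨MvPolynomial.X (i, j), fun g => by simp⟩

lemma IsPoly.det {M : SLn n → Mat n} (h : ∀ i j, IsPoly (fun g => M g i j)) :
    IsPoly (fun g => (M g).det) := by
  simp only [Matrix.det_apply']
  refine IsPoly.sum _ fun σ _ => ?_
  exact (IsPoly.const _).mul (IsPoly.prod _ fun i _ => h _ _)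

lemma IsPoly.inv_entry (i j : Fin n) : IsPoly (fun g : SLn n => ((g⁻¹ : SLn n) : Mat n) i j) := by
  simp only [Matrix.SpecialLinearGroup.coe_inv, Matrix.adjugate_apply]
  refine IsPoly.det fun a b => ?_
  by_cases ha : a = j
  · subst ha
    simp only [Matrix.updateRow_self]
    exact IsPoly.const _
  · simp only [Matrix.updateRow_ne ha]
    exact IsPoly.entry a b

lemma rho_rational : IsRational (rho m n) := by
  intro φ w
  let v : W m n := (InnerProductSpace.toDual ℝ (W m n)).symm (LinearMap.toContinuousLinearMap φ)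
  have hv : ∀ x : W m n, φ x = inner ℝ v x := by
    intro x
    rw [InnerProductSpace.toDual_symm_apply]
    rfl
  have : IsPoly (fun g => φ (rho m n g w)) := by
    simp only [hv, Submodule.coe_inner, rho_coe]
    simp only [PiLp.inner_apply, Fintype.sum_prod_type, act_apply]
    refine IsPoly.sum _ fun i _ => IsPoly.sum _ fun j _ => ?_
    have h2 : IsPoly (fun g : SLn n => (∑ i' : Ix m n, ∑ j' : Ix m n,
      kp m (((g⁻¹ : SLn n) : Mat n)ᵀ) i i' * kp m (((g⁻¹ : SLn n) : Mat n)ᵀ) j j' *
        (w : Ten m n) (i', j')) * (v : Ten m n) (i, j)) := by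
      refine IsPoly.mul ?_ (IsPoly.const _)
      refine IsPoly.sum _ fun i' _ => IsPoly.sum _ fun j' _ => ?_
      refine IsPoly.mul ?_ (IsPoly.const _)
      simp only [kp_apply, Matrix.transpose_apply]
      exact (IsPoly.prod _ fun a _ => IsPoly.inv_entry _ _).mul
        (IsPoly.prod _ fun a _ => IsPoly.inv_entry _ _)
    exact h2
  obtain ⟨p, hp⟩ := this
  exact ⟨p, hp⟩

lemma rho_isIrred : IsIrred (rho m (k + m)) := rho_irred

lemma rho_highest : HasHighestWeight (rho m (k + m)) (fun i => if i.val < k then 2 else 0) := by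
  refine ⟨v0 k m, fun h => v0_inner_ne (k := k) (m := m) (by rw [h]; simp),
    fun u h1 h2 => v0_fixed h1 h2, fun t h => ?_⟩
  rw [v0_torus h, Fin.prod_univ_add]
  congr 1
  rw [← Finset.prod_pow]
  have e2 : ∏ b : Fin m, (t : Mat (k + m)) (Fin.natAdd k b) (Fin.natAdd k b) ^
      (if (Fin.natAdd k b).val < k then (2:ℤ) else 0) = 1 := by
    refine Finset.prod_eq_one fun b _ => ?_
    rw [if_neg (by simp), zpow_zero]
  have e1 : ∏ a : Fin k, (t : Mat (k + m)) (Fin.castAdd m a) (Fin.castAdd m a) ^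
      (if (Fin.castAdd m a).val < k then (2:ℤ) else 0) =
      ∏ a : Fin k, (t : Mat (k + m)) (Fin.castAdd m a) (Fin.castAdd m a) ^ 2 := by
    refine Finset.prod_congr rfl fun a _ => ?_
    rw [if_pos (by simp)]
    norm_cast
  rw [e1, e2, mul_one]

lemma rho_not_admissible (hk : 2 ≤ k) (hm : 2 ≤ m) : ¬ IsAdmissible (rho m (k + m)) := by
  rintro ⟨p, q, w, hw, hu, ht⟩
  obtain ⟨c, rfl⟩ := fixed_unique hu
  have hc : c ≠ 0 := by rintro rfl; simp at hw
  have hv : v0 k m ≠ 0 := by rintro h; simp [h] at hw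
  let i1 : Fin (k + m) := Fin.castAdd m ⟨1, by omega⟩
  let i2 : Fin (k + m) := Fin.natAdd k ⟨0, by omega⟩
  have hne : i1 ≠ i2 := by
    intro h
    have := congrArg Fin.val h
    simp [i1, i2] at this
    omega
  let d : Fin (k + m) → ℝ := fun i => if i = i1 then 2 else if i = i2 then 1 / 2 else 1
  have hprod : ∏ i, d i = 1 := by
    have h1 : ∏ i ∈ ({i1, i2} : Finset (Fin (k + m))), d i = ∏ i, d i := by
      refine Finset.prod_subset (Finset.subset_univ _) fun i _ hi => ?_
      simp only [Finset.mem_insert, Finset.mem_singleton, not_or] at hi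
      simp only [d, if_neg hi.1, if_neg hi.2]
    rw [← h1, Finset.prod_pair hne]
    simp only [d, if_true, if_neg hne.symm]
    norm_num
  let t : SLn (k + m) := ⟨Matrix.diagonal d, by rw [Matrix.det_diagonal, hprod]⟩
  have htd : ∀ i j, i ≠ j → (t : Mat (k + m)) i j = 0 := fun i j hij => Matrix.diagonal_apply_ne _ hij
  have hte : ∀ i, (t : Mat (k + m)) i i = d i := fun i => Matrix.diagonal_apply_eq _ _
  have h1 := ht t htd
  rw [map_smul, v0_torus htd] at h1
  have hA : (∏ a : Fin k, (t : Mat (k + m)) (Fin.castAdd m a) (Fin.castAdd m a)) = 2 := by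
    rw [Finset.prod_eq_single (⟨1, by omega⟩ : Fin k)]
    · rw [hte]; simp only [d, i1, if_true]
    · intro b _ hb
      rw [hte]
      have n1 : Fin.castAdd m b ≠ i1 := fun h => hb (Fin.castAdd_injective k m h)
      have n2 : Fin.castAdd m b ≠ i2 := by
        intro h
        have := congrArg Fin.val h
        simp [i2] at this
        omega
      simp only [d, if_neg n1, if_neg n2]
    · intro h; exact absurd (Finset.mem_univ _) h
  have hB : ∏ i : Fin (k + m), (t : Mat (k + m)) i i ^
      ((fun i : Fin (k + m) => if i.val = 0 then (p : ℤ) + q else if i.val + 1 = k + m then 0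
        else (q : ℤ)) i) = 1 := by
    have h2 : ∏ i ∈ ({i1, i2} : Finset (Fin (k + m))), (t : Mat (k + m)) i i ^
      ((fun i : Fin (k + m) => if i.val = 0 then (p : ℤ) + q else if i.val + 1 = k + m then 0
        else (q : ℤ)) i) = ∏ i : Fin (k + m), (t : Mat (k + m)) i i ^
      ((fun i : Fin (k + m) => if i.val = 0 then (p : ℤ) + q else if i.val + 1 = k + m then 0
        else (q : ℤ)) i) := by
      refine Finset.prod_subset (Finset.subset_univ _) fun i _ hi => ?_
      simp only [Finset.mem_insert, Finset.mem_singleton, not_or] at hi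
      rw [hte]
      simp only [d, if_neg hi.1, if_neg hi.2, _root_.one_zpow]
    rw [← h2, Finset.prod_pair hne, hte, hte]
    have v1 : i1.val = 1 := rfl
    have v2 : i2.val = k := rfl
    simp only [v1, v2]
    rw [if_neg (by norm_num), if_neg (by omega), if_neg (by omega), if_neg (by omega)]
    have d1 : d i1 = 2 := by simp only [d, if_true]
    have d2 : d i2 = 1 / 2 := by simp only [d, if_neg hne.symm, if_true]
    rw [d1, d2, ← mul_zpow]
    norm_num
  rw [hA, hB, one_smul, smul_comm] at h1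
  have h3 : ((2:ℝ) ^ 2 - 1) • (c • v0 k m) = 0 := by
    rw [sub_smul, h1, one_smul, sub_self]
  rcases smul_eq_zero.1 h3 with h4 | h4
  · norm_num at h4
  · exact absurd h4 (smul_ne_zero hc hv)

end Pool.Agent.KS6_52.MV.Rep
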