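import Mathlib
import Pool.Agent.KS6_52.MV.Func
import Pool.Agent.KS6_52.MV.Rep3

/-! The Minkowski valuation. -/

namespace Pool.Agent.KS6_52.MV

open Set Metric MeasureTheory Filter Topology Matrix Pool.Agent.KS6_52.MV.Stmt

set_option maxHeartbeats 4000000

variable {n m : ℕ}

open scoped MatrixOrder in
lemma exists_sqrt {A : Mat n} (hA : A.PosDef) : ∃ B : Mat n, B.det ≠ 0 ∧ A = B * Bᵀ := by
  obtain ⟨X, hX⟩ := CStarAlgebra.nonneg_iff_eq_star_mul_self.mp hA.posSemidef.nonneg
  have hX' : A = Xᵀ * X := by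
    rw [hX, Matrix.star_eq_conjTranspose, Matrix.conjTranspose_eq_transpose_of_trivial]
  refine ⟨Xᵀ, ?_, by rw [Matrix.transpose_transpose]; exact hX'⟩
  intro h0
  have := hA.det_pos
  rw [hX', Matrix.det_mul, h0, zero_mul] at this
  exact lt_irrefl _ this

/-- the span of the tensors `lam (B Bᵀ)` -/
noncomputable def W' (m n : ℕ) : Submodule ℝ (Ten m n) :=
  Submodule.span ℝ {x | ∃ B : Mat n, B.det ≠ 0 ∧ x = lam m (B * Bᵀ)}

lemma lam_cont : Continuous (lam (n := n) m) := by
  unfold lam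
  refine (PiLp.continuous_toLp 2 _).comp ?_
  refine continuous_pi fun p => ?_
  exact Continuous.matrix_det (continuous_id.matrix_submatrix _ _)

lemma sq_eq_lam (X : Matrix (Fin m) (Fin n) ℝ) : Rep.sq X = lam m (Xᵀ * X) := by
  ext ⟨i, j⟩
  rw [Rep.sq_apply, Rep.lam_apply]
  have e : (Xᵀ * X).submatrix i j = (X.submatrix id i)ᵀ * (X.submatrix id j) := by
    ext a b
    simp [Matrix.mul_apply]
  rw [e, Matrix.det_mul, Matrix.det_transpose]
  rfl

lemma posDef_aux (X : Matrix (Fin m) (Fin n) ℝ) {ε : ℝ} (hε : 0 < ε) :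
    (Xᵀ * X + ε • (1 : Mat n)).PosDef := by
  refine Matrix.PosDef.posSemidef_add ?_ ?_
  · have := Matrix.posSemidef_conjTranspose_mul_self X
    rwa [Matrix.conjTranspose_eq_transpose_of_trivial] at this
  · exact Matrix.PosDef.one.smul hε

lemma W_le : Rep.W m n ≤ W' m n := by
  refine Submodule.span_le.2 ?_
  rintro _ ⟨X, rfl⟩
  have h : ∀ ε : ℝ, 0 < ε → lam m (Xᵀ * X + ε • (1 : Mat n)) ∈ W' m n := by
    intro ε hε
    obtain ⟨B, hB, hB2⟩ := exists_sqrt (posDef_aux X hε)
    exact Submodule.subset_span ⟨B, hB, by rw [hB2]⟩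
  show Rep.sq X ∈ W' m n
  rw [sq_eq_lam]
  have hcl : IsClosed (W' m n : Set (Ten m n)) := Submodule.closed_of_finiteDimensional _
  have hc : Continuous (fun ε : ℝ => lam m (Xᵀ * X + ε • (1 : Mat n))) :=
    lam_cont.comp (continuous_const.add (continuous_id.smul continuous_const))
  have ht : Tendsto (fun ε : ℝ => lam m (Xᵀ * X + ε • (1 : Mat n))) (𝓝[>] 0)
      (𝓝 (lam m (Xᵀ * X))) := by
    have := (hc.tendsto 0).mono_left (nhdsWithin_le_nhds (s := Ioi 0))
    simpa using this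
  refine hcl.mem_of_tendsto ht ?_
  filter_upwards [self_mem_nhdsWithin] with ε hε
  exact h ε hε

/-- the vector valued functional with values in `W` -/
noncomputable def φ (m : ℕ) (K : Set (En n)) : Rep.W m n :=
  (Rep.W m n).orthogonalProjectionOnto (SK m K)

lemma inner_φ (w : Rep.W m n) (K : Set (En n)) :
    inner ℝ w (φ m K) = inner ℝ (w : Ten m n) (SK m K) := by
  unfold φ
  exact Submodule.inner_orthogonalProjectionOnto_eq_of_mem_left w _

lemma val_aux (hm : m ≤ n) {K L : Set (En n)} (hK : IsB K) (hL : IsB L) (hU : IsB (K ∪ L))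
    {w : Ten m n} (hw : w ∈ W' m n) : inner ℝ w (SK m (K ∪ L)) + inner ℝ w (SK m (K ∩ L)) =
    inner ℝ w (SK m K) + inner ℝ w (SK m L) := by
  have hI : IsB (K ∩ L) := ⟨hK.cpt.inter hL.cpt, hK.cvx.inter hL.cvx, by
    rw [interior_inter]; exact ⟨hK.zero, hL.zero⟩⟩
  induction hw using Submodule.span_induction with
  | mem y hy =>
    obtain ⟨B, hB, rfl⟩ := hy
    rw [← zq_eq hm hU hB, ← zq_eq hm hI hB, ← zq_eq hm hK hB, ← zq_eq hm hL hB, zq_val hK hL hU hB]
  | zero => simp
  | add y z _ _ hy hz => simp only [inner_add_left]; linarith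
  | smul c y _ hy => simp only [inner_smul_left, ← mul_add, hy]

lemma φ_val (hm : m ≤ n) {K L : Set (En n)} (hK : IsB K) (hL : IsB L) (hU : IsB (K ∪ L)) :
    φ m (K ∪ L) + φ m (K ∩ L) = φ m K + φ m L := by
  apply ext_inner_left ℝ
  intro w
  rw [inner_add_right, inner_add_right, inner_φ, inner_φ, inner_φ, inner_φ]
  exact val_aux hm hK hL hU (W_le w.2)

lemma tendsto_aux (hm : m ≤ n) {K : ℕ → Set (En n)} {L : Set (En n)} {δ : ℕ → ℝ}
    (hK : ∀ j, IsB (K j)) (hL : IsB L)
    (hc : ∀ j, Close (δ j) (K j) L) (hδ : Tendsto δ atTop (𝓝 0)) {w : Ten m n} (hw : w ∈ W' m n) :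
    Tendsto (fun j => inner ℝ w (SK m (K j))) atTop (𝓝 (inner ℝ w (SK m L))) := by
  induction hw using Submodule.span_induction with
  | mem y hy =>
    obtain ⟨B, hB, rfl⟩ := hy
    simp only [← zq_eq hm hL hB, ← zq_eq hm (hK _) hB]
    exact zq_tendsto hK hL hc hδ hB
  | zero => simp
  | add y z _ _ hy hz => simp only [inner_add_left]; exact hy.add hz
  | smul c y _ hy => simp only [inner_smul_left]; exact hy.const_mul _

lemma φ_tendsto (hm : m ≤ n) {K : ℕ → Set (En n)} {L : Set (En n)} {δ : ℕ → ℝ}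
    (hK : ∀ j, IsB (K j)) (hL : IsB L)
    (hc : ∀ j, Close (δ j) (K j) L) (hδ : Tendsto δ atTop (𝓝 0)) :
    Tendsto (fun j => φ m (K j)) atTop (𝓝 (φ m L)) := by
  let b := stdOrthonormalBasis ℝ (Rep.W m n)
  have h1 : ∀ x : Rep.W m n, x = ∑ i, inner ℝ (b i) x • b i := fun x => (b.sum_repr' x).symm
  rw [h1 (φ m L)]
  have h2 : (fun j => φ m (K j)) = fun j => ∑ i, inner ℝ (b i) (φ m (K j)) • b i := by
    ext j; rw [← h1]
  rw [h2]
  refine tendsto_finsetSum _ fun i _ => ?_
  refine Tendsto.smul_const ?_ _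
  simp only [inner_φ]
  exact tendsto_aux hm hK hL hc hδ (W_le (b i).2)

lemma equi_aux (hm : m ≤ n) {K : Set (En n)} (hK : IsB K) (g : Rep.SLn n) {w : Ten m n}
    (hw : w ∈ W' m n) :
    inner ℝ w (SK m (op (g : Mat n) '' K)) = inner ℝ (Rep.act ((g⁻¹ : Rep.SLn n) : Mat n) w) (SK m K) := by
  have hg : (g : Mat n).det = 1 := g.2
  have hg0 : (g : Mat n).det ≠ 0 := by rw [hg]; exact one_ne_zero
  have hgi : ((g⁻¹ : Rep.SLn n) : Mat n) = (g : Mat n)⁻¹ := by
    rw [Matrix.SpecialLinearGroup.coe_inv, Matrix.inv_def, hg]; simp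
  induction hw using Submodule.span_induction with
  | mem y hy =>
    obtain ⟨B, hB, rfl⟩ := hy
    rw [← zq_eq hm (hK.op_image hg0) hB, ← zq_equi K hg, Rep.act_lam, hgi]
    have hB' : ((g : Mat n)⁻¹ * B).det ≠ 0 := by
      rw [Matrix.det_mul]; exact mul_ne_zero (inv_det_ne hg0) hB
    rw [zq_eq hm hK hB']
    congr 2
    rw [Matrix.transpose_mul]
    simp only [Matrix.mul_assoc]
  | zero => simp
  | add y z _ _ hy hz => simp only [map_add, inner_add_left]; rw [hy, hz]
  | smul c y _ hy => simp only [map_smul, inner_smul_left]; rw [hy]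

lemma φ_equi (hm : m ≤ n) {K : Set (En n)} (hK : IsB K) (g : Rep.SLn n) :
    φ m (op (g : Mat n) '' K) = Rep.rho m n g (φ m K) := by
  apply ext_inner_left ℝ
  intro w
  rw [inner_φ, equi_aux hm hK g (W_le w.2)]
  have h1 : inner ℝ w (Rep.rho m n g (φ m K)) = inner ℝ (Rep.rho m n (Rep.tr g) w) (φ m K) := by
    rw [real_inner_comm, Rep.rho_adj, real_inner_comm]
  rw [h1, inner_φ, Rep.rho_coe, Rep.tr_inv_coe, Matrix.transpose_transpose]

/-- Cauchy-Binet for the identity -/
lemma lam_one_mem : lam m (1 : Mat n) ∈ Rep.W m n := by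
  have h : lam m (1 : Mat n) = (1 / (m.factorial : ℝ)) • ∑ l : Ix m n,
      Rep.sq ((1 : Mat n).submatrix l id) := by
    ext ⟨i, j⟩
    rw [Rep.lam_apply]
    simp only [PiLp.smul_apply, smul_eq_mul, WithLp.ofLp_sum, Finset.sum_apply]
    have h1 := antisymm ((1 : Mat n).submatrix i id)
      (fun l : Ix m n => ((1 : Mat n).submatrix l j).det) (fun σ l => by
        have := Matrix.det_permute σ ((1 : Mat n).submatrix l j)
        rw [← this]
        rfl)
    have h2 : ∑ l : Ix m n, (∏ a, ((1 : Mat n).submatrix i id) a (l a)) *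
        ((1 : Mat n).submatrix l j).det = ((1 : Mat n).submatrix i j).det := by
      rw [Finset.sum_eq_single i]
      · have hp : ∏ a, ((1 : Mat n).submatrix i id) a (i a) = 1 :=
          Finset.prod_eq_one (fun a _ => Matrix.one_apply_eq (i a))
        rw [hp, one_mul]
      · intro l _ hl
        obtain ⟨a, ha⟩ := Function.ne_iff.1 hl
        rw [Finset.prod_eq_zero (Finset.mem_univ a), zero_mul]
        exact Matrix.one_apply_ne (fun h => ha h.symm)
      · intro h; exact absurd (Finset.mem_univ _) h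
    rw [← h2, h1, Finset.mul_sum]
    refine Finset.sum_congr rfl fun l _ => ?_
    rw [Rep.sq_apply]
    have e1 : (((1 : Mat n).submatrix i id).submatrix id l).det =
        Rep.pl ((1 : Mat n).submatrix l id) i := by
      unfold Rep.pl
      rw [← Matrix.det_transpose]
      congr 1
      ext a b
      simp [Matrix.one_apply, eq_comm]
    have e2 : ((1 : Mat n).submatrix l j).det = Rep.pl ((1 : Mat n).submatrix l id) j := rfl
    rw [e1, e2]
    ring
  rw [h]
  exact (Rep.W m n).smul_mem _ ((Rep.W m n).sum_mem fun l _ => Rep.sq_mem _)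

end Pool.Agent.KS6_52.MV
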