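import Mathlib
import Pool.Agent.KS6_52.MV.Val

/-! Evaluation on balls. -/

namespace Pool.Agent.KS6_52.MV

open Set Metric MeasureTheory Filter Topology Matrix Pool.Agent.KS6_52.MV.Stmt
open scoped Pointwise

set_option maxHeartbeats 4000000

variable {n m : ℕ}

lemma isB_ball {r : ℝ} (hr : 0 < r) : IsB (closedBall (0:En n) r) :=
  ⟨isCompact_closedBall _ _, convex_closedBall _ _, by
    rw [interior_closedBall _ hr.ne']; simpa using hr⟩

lemma proj_ball {r : ℝ} (hr : 0 < r) (z : En n) :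
    IsProj (closedBall (0:En n) r) z (if ‖z‖ ≤ r then z else (r / ‖z‖) • z) := by
  by_cases h : ‖z‖ ≤ r
  · rw [if_pos h]
    exact ⟨by simpa using h, fun y _ => by simp⟩
  · rw [if_neg h]
    push Not at h
    have hz : 0 < ‖z‖ := hr.trans h
    refine ⟨?_, fun y hy => ?_⟩
    · rw [mem_closedBall_zero_iff, norm_smul, Real.norm_eq_abs, abs_of_pos (by positivity),
        div_mul_cancel₀ _ hz.ne']
    · rw [mem_closedBall_zero_iff] at hy
      have e1 : z - (r / ‖z‖) • z = (1 - r / ‖z‖) • z := by module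
      rw [e1, inner_smul_left, inner_sub_right, inner_smul_right, real_inner_self_eq_norm_sq]
      have h1 : inner ℝ z y ≤ ‖z‖ * r := (real_inner_le_norm z y).trans (by gcongr)
      have h2 : r / ‖z‖ * ‖z‖ ^ 2 = ‖z‖ * r := by field_simp
      have h3 : 0 ≤ 1 - r / ‖z‖ := by
        rw [sub_nonneg, div_le_one hz]; exact h.le
      simp only [conj_trivial]
      exact mul_nonpos_of_nonneg_of_nonpos h3 (by linarith)

lemma intg_ball {r : ℝ} (hr : 0 < r) (z : En n) :
    intg (closedBall (0:En n) r) z = bump (r * max (‖z‖ - r) 0) := by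
  unfold intg
  rw [(proj_ball hr z).proj_eq]
  by_cases h : ‖z‖ ≤ r
  · rw [if_pos h, max_eq_right (by linarith)]; simp
  · rw [if_neg h]
    push Not at h
    have hz : 0 < ‖z‖ := hr.trans h
    rw [max_eq_left (by linarith)]
    congr 1
    have e1 : z - (r / ‖z‖) • z = (1 - r / ‖z‖) • z := by module
    rw [e1, inner_smul_left, inner_smul_right, real_inner_self_eq_norm_sq]
    simp only [conj_trivial]
    field_simp

lemma radial (N : ℕ) {r : ℝ} (hr : 0 < r) :
    ∫ y in Ioi (0:ℝ), y ^ N * bump (r * max (y - r) 0) =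
    r ^ (N + 1) / (N + 1) + r⁻¹ * ∫ τ in (0:ℝ)..1, (r⁻¹ * τ + r) ^ N * (1 - τ) := by
  have hR : r < r + 1 / r := by
    have : 0 < 1 / r := by positivity
    linarith
  have h1 : ∫ y in Ioi (0:ℝ), y ^ N * bump (r * max (y - r) 0) =
      ∫ y in Ioc (0:ℝ) (r + 1 / r), y ^ N * bump (r * max (y - r) 0) := by
    refine (setIntegral_eq_of_subset_of_forall_diff_eq_zero measurableSet_Ioi
      (fun y hy => hy.1) ?_)
    intro y hy
    have hy2 : r + 1 / r < y := by
      by_contra hcon
      push Not at hcon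
      exact hy.2 ⟨hy.1, hcon⟩
    rw [bump_zero, mul_zero]
    rw [max_eq_left (by linarith)]
    have : r * (1 / r) ≤ r * (y - r) := by
      apply mul_le_mul_of_nonneg_left _ hr.le
      linarith
    rwa [mul_one_div_cancel hr.ne'] at this
  rw [h1, ← intervalIntegral.integral_of_le (by linarith)]
  have hc : Continuous (fun y : ℝ => y ^ N * bump (r * max (y - r) 0)) :=
    (continuous_pow N).mul (bump_cont.comp (by fun_prop))
  rw [← intervalIntegral.integral_add_adjacent_intervals (b := r)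
    (hc.intervalIntegrable _ _) (hc.intervalIntegrable _ _)]
  have h2 : ∫ y in (0:ℝ)..r, y ^ N * bump (r * max (y - r) 0) = ∫ y in (0:ℝ)..r, y ^ N := by
    apply intervalIntegral.integral_congr
    intro y hy
    rw [uIcc_of_le hr.le] at hy
    simp only
    rw [max_eq_right (by linarith [hy.2]), mul_zero]
    simp [bump]
  have h3 : ∫ y in r..(r + 1 / r), y ^ N * bump (r * max (y - r) 0) =
      ∫ y in r..(r + 1 / r), y ^ N * (1 - r * (y - r)) := by
    apply intervalIntegral.integral_congr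
    intro y hy
    rw [uIcc_of_le hR.le] at hy
    simp only
    rw [max_eq_left (by linarith [hy.1])]
    have : r * (y - r) ≤ 1 := by
      have h5 : r * (y - r) ≤ r * (1 / r) := by
        apply mul_le_mul_of_nonneg_left _ hr.le
        linarith [hy.2]
      rwa [mul_one_div_cancel hr.ne'] at h5
    unfold bump
    rw [max_eq_left (by linarith)]
  have h4 := intervalIntegral.integral_comp_mul_add (a := 0) (b := 1)
    (fun y : ℝ => y ^ N * (1 - r * (y - r))) (c := r⁻¹) (inv_ne_zero hr.ne') r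
  have e1 : r⁻¹ * 0 + r = r := by ring
  have e2 : r⁻¹ * 1 + r = r + 1 / r := by ring
  rw [e1, e2, inv_inv, smul_eq_mul] at h4
  have h5 : ∫ y in r..(r + 1 / r), y ^ N * (1 - r * (y - r)) =
      r⁻¹ * ∫ τ in (0:ℝ)..1, (r⁻¹ * τ + r) ^ N * (1 - τ) := by
    have h6 : ∫ τ in (0:ℝ)..1, (r⁻¹ * τ + r) ^ N * (1 - r * (r⁻¹ * τ + r - r)) =
        ∫ τ in (0:ℝ)..1, (r⁻¹ * τ + r) ^ N * (1 - τ) := by
      apply intervalIntegral.integral_congr
      intro τ _
      simp only
      congr 2
      field_simp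
      ring
    rw [← h6, h4]
    field_simp
  rw [h2, h3, h5, integral_pow]
  congr 1
  simp

lemma zeta_ball (hn : 0 < n) {r : ℝ} (hr : 0 < r) : zeta (closedBall (0:En n) r) =
    n * (volume : Measure (En n)).real (ball 0 1) *
    (r ^ n / n + r⁻¹ * ∫ τ in (0:ℝ)..1, (r⁻¹ * τ + r) ^ (n - 1) * (1 - τ)) := by
  unfold zeta
  simp only [intg_ball hr]
  have : Nonempty (Fin n) := ⟨⟨0, hn⟩⟩
  rw [integral_fun_norm_addHaar volume (fun y => bump (r * max (y - r) 0))]
  simp only [finrank_euclideanSpace, Fintype.card_fin, smul_eq_mul]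
  rw [radial (n - 1) hr]
  have e : n - 1 + 1 = n := by omega
  have e' : ((n - 1 : ℕ) : ℝ) + 1 = n := by
    rw [← e]; push_cast; simp
  rw [e, e']
  simp only [nsmul_eq_mul]
  ring

lemma zf_ball (hn : 0 < n) {b : ℝ} (hb : 0 < b) : zf (b • (1 : Mat n)) (closedBall (0:En n) 1) =
    n * (volume : Measure (En n)).real (ball 0 1) *
    (1 / n + ∫ τ in (0:ℝ)..1, b ^ 2 * (1 + b ^ 2 * τ) ^ (n - 1) * (1 - τ)) := by
  unfold zf
  have h1 : (b • (1 : Mat n))⁻¹ = b⁻¹ • (1 : Mat n) := by
    apply Matrix.inv_eq_right_inv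
    rw [Matrix.smul_mul, Matrix.mul_smul, Matrix.one_mul, smul_smul, mul_inv_cancel₀ hb.ne',
      one_smul]
  have h2 : op (b⁻¹ • (1 : Mat n)) '' (closedBall (0:En n) 1) = closedBall (0:En n) b⁻¹ := by
    have : ∀ x : En n, op (b⁻¹ • (1 : Mat n)) x = b⁻¹ • x := by
      intro x
      simp [op]
    have h3 : op (b⁻¹ • (1 : Mat n)) '' (closedBall (0:En n) 1) = b⁻¹ • closedBall (0:En n) 1 := by
      ext y
      simp only [mem_image, this, mem_smul_set]
    rw [h3, smul_unitClosedBall]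
    congr 1
    rw [Real.norm_eq_abs, abs_of_pos (by positivity)]
  rw [h1, h2, zeta_ball hn (by positivity), Matrix.det_smul, Matrix.det_one]
  simp only [Fintype.card_fin, mul_one]
  rw [abs_of_pos (by positivity), inv_inv]
  have h4 : b ^ n * (b * ∫ τ in (0:ℝ)..1, (b * τ + b⁻¹) ^ (n - 1) * (1 - τ)) =
      ∫ τ in (0:ℝ)..1, b ^ 2 * (1 + b ^ 2 * τ) ^ (n - 1) * (1 - τ) := by
    rw [← mul_assoc, ← intervalIntegral.integral_const_mul]
    apply intervalIntegral.integral_congr
    intro τ _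
    simp only
    have e : 1 + b ^ 2 * τ = b * (b * τ + b⁻¹) := by field_simp; ring
    rw [e, mul_pow]
    have e2 : b ^ n = b * b ^ (n - 1) := by
      rw [← pow_succ']; congr 1; omega
    rw [e2]
    ring
  have h5 : b ^ n * ((b⁻¹) ^ n / n) = 1 / n := by
    rw [mul_div_assoc', ← mul_pow, mul_inv_cancel₀ hb.ne', one_pow]
  calc b ^ n * (n * (volume : Measure (En n)).real (ball 0 1) * ((b⁻¹) ^ n / n +
        b * ∫ τ in (0:ℝ)..1, (b * τ + b⁻¹) ^ (n - 1) * (1 - τ))) =
        n * (volume : Measure (En n)).real (ball 0 1) * (b ^ n * ((b⁻¹) ^ n / n) +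
        b ^ n * (b * ∫ τ in (0:ℝ)..1, (b * τ + b⁻¹) ^ (n - 1) * (1 - τ))) := by ring
    _ = _ := by rw [h4, h5]

lemma wt_sum (hm1 : 1 ≤ m) (hm : m ≤ n) (τ : ℝ) :
    ∑ j : Fin (n + 1), wt n m j * (((j : ℝ) + 1) * (1 + ((j : ℝ) + 1) * τ) ^ (n - 1)) =
    ((n - 1).choose (m - 1) : ℝ) * τ ^ (m - 1) := by
  have h1 : ∀ j : Fin (n + 1), wt n m j * (((j : ℝ) + 1) * (1 + ((j : ℝ) + 1) * τ) ^ (n - 1)) =
      ∑ p ∈ Finset.range (n - 1 + 1), ((n - 1).choose p : ℝ) * τ ^ p *
        (wt n m j * ((j : ℝ) + 1) ^ (p + 1)) := by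
    intro j
    rw [add_comm (1:ℝ) (((j : ℝ) + 1) * τ), add_pow, Finset.mul_sum, Finset.mul_sum]
    refine Finset.sum_congr rfl fun p _ => ?_
    rw [one_pow, mul_pow]
    ring
  simp only [h1]
  rw [Finset.sum_comm]
  simp only [← Finset.mul_sum]
  rw [Finset.sum_eq_single (m - 1)]
  · rw [wt_spec hm (by omega), if_pos (by omega), mul_one]
  · intro p hp hne
    rw [Finset.mem_range] at hp
    rw [wt_spec hm (by omega), if_neg (by omega), mul_zero]
  · intro h
    exact absurd (Finset.mem_range.2 (by omega)) h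

lemma zq_ball (hm1 : 1 ≤ m) (hm : m ≤ n) : 0 < zq m 1 (closedBall (0:En n) 1) := by
  have hn : 0 < n := by omega
  have hvol : 0 < (volume : Measure (En n)).real (ball 0 1) := by
    apply ENNReal.toReal_pos
    · exact (measure_ball_pos _ _ one_pos).ne'
    · exact measure_ball_lt_top.ne
  have h : zq m 1 (closedBall (0:En n) 1) = n * (volume : Measure (En n)).real (ball 0 1) *
      ∫ τ in (0:ℝ)..1, (((n - 1).choose (m - 1) : ℝ) * τ ^ (m - 1)) * (1 - τ) := by
    unfold zq
    have h1 : ∀ j : Fin (n + 1), zf (Real.sqrt ((j : ℝ) + 1) • (1 : Mat n)) (closedBall (0:En n) 1) =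
        n * (volume : Measure (En n)).real (ball 0 1) * (1 / n +
        ∫ τ in (0:ℝ)..1, ((j : ℝ) + 1) * (1 + ((j : ℝ) + 1) * τ) ^ (n - 1) * (1 - τ)) := by
      intro j
      rw [zf_ball hn (Real.sqrt_pos.2 (by positivity)), Real.sq_sqrt (by positivity)]
    simp only [h1]
    have h2 : ∑ j : Fin (n + 1), wt n m j * (n * (volume : Measure (En n)).real (ball 0 1) * (1 / n +
        ∫ τ in (0:ℝ)..1, ((j : ℝ) + 1) * (1 + ((j : ℝ) + 1) * τ) ^ (n - 1) * (1 - τ))) =
        n * (volume : Measure (En n)).real (ball 0 1) *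
          ((1 / n) * ∑ j : Fin (n + 1), wt n m j * ((j : ℝ) + 1) ^ 0 +
          ∑ j : Fin (n + 1), ∫ τ in (0:ℝ)..1,
            wt n m j * (((j : ℝ) + 1) * (1 + ((j : ℝ) + 1) * τ) ^ (n - 1) * (1 - τ))) := by
      rw [Finset.mul_sum, ← Finset.sum_add_distrib, Finset.mul_sum]
      refine Finset.sum_congr rfl fun j _ => ?_
      rw [intervalIntegral.integral_const_mul]
      ring
    rw [h2, wt_spec hm (Nat.zero_le _), if_neg (by omega), mul_zero, zero_add,
      ← intervalIntegral.integral_finset_sum]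
    · congr 1
      apply intervalIntegral.integral_congr
      intro τ _
      simp only
      rw [← wt_sum hm1 hm τ, Finset.sum_mul]
      refine Finset.sum_congr rfl fun j _ => by ring
    · intro j _
      apply Continuous.intervalIntegrable
      fun_prop
  rw [h]
  have hpos : 0 < ∫ τ in (0:ℝ)..1, (((n - 1).choose (m - 1) : ℝ) * τ ^ (m - 1)) * (1 - τ) := by
    apply intervalIntegral.intervalIntegral_pos_of_pos_on
    · apply Continuous.intervalIntegrable
      fun_prop
    · intro τ hτ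
      have h1 : 0 < τ := hτ.1
      have h2 : 0 < 1 - τ := by linarith [hτ.2]
      have h3 : (0:ℝ) < ((n - 1).choose (m - 1) : ℝ) := by
        exact_mod_cast Nat.choose_pos (by omega)
      positivity
    · norm_num
  have hn' : (0:ℝ) < n := by exact_mod_cast hn
  positivity

lemma φ_ball_ne (hm1 : 1 ≤ m) (hm : m ≤ n) : φ m (closedBall (0:En n) 1) ≠ 0 := by
  intro h
  have h1 := inner_φ ⟨lam m (1 : Mat n), lam_one_mem⟩ (closedBall (0:En n) 1)
  rw [h, inner_zero_right] at h1
  have h2 := zq_eq hm (isB_ball one_pos) (B := (1 : Mat n)) (by simp)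
  rw [Matrix.transpose_one, Matrix.mul_one, ← h1] at h2
  have h3 := zq_ball hm1 hm
  linarith

end Pool.Agent.KS6_52.MV
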